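import Pool.Agent.D0H90.SM.Stm2

set_option autoImplicit false

/-!
# Project SM (MP_807a54_ag): third batch of modules

Notation: `𝓔 = genE` the generic matrix, `y = geny c` the generic point of the slice through `c`,
`f = 𝓔 ∘ y ∘ 𝓔⁻¹` (`genfL`, `genf`), `θ(P) = P(f)`. `Sol c E`: `f(E e_i) = E c(e_i)` for all `i`. E.g.
`𝓔` is a solution: `f(𝓔 e_i) = 𝓔 y(e_i)` and `y(e_i) = c(e_i)`.
-/

namespace Pool.Agent.D0H90.SM

open MvPolynomial Matrix

universe u

/-- THETA (may use S_BASE). `θ : k[V] → LL` is injective if `c` is transversal.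

Proof. Let `F ≠ 0` be in the kernel, of minimal total degree. Apply a `k`-derivation `∂` of `LL`:
`Σ_a (∂_a F)(f) ∂f_a = 0`. The vectors `(∂ f_a)_a` for all derivations span `LL^Cf`: for the
derivations `∂/∂y_ρ` and `∂/∂𝓔_ij` the matrix of the `∂f_a` (entries in `PP[1/det 𝓔]`) has at
`𝓔 = 1`, `y = rest c` the rows `e_ρ` (`ρ ∈ Rest`) and the coefficients of `B c(x) - Dc(x) B x`,
`B = E_ij`; by transversality it is invertible there (the `x_i^d`-coefficients of the latter are
independent; there are `n²` pairs `(i, j)` and `n²` indices not in Rest). So all `(∂_a F)(f) = 0`, by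
minimality `∂_a F = 0` for all `a`, and `F` is constant (char 0). Contradiction. -/
def S_THETA : Prop :=
  ∀ (k : Type u) [Field k] [CharZero k] (n d : ℕ), 2 ≤ d → ∀ c : Cf n d → k, Transv c →
    Function.Injective (theta c)

/-- EXTB (may use S_BASE). For `A ∈ GL_n(k)` there is an automorphism of `OM` over `k` which maps
the coordinates of `f` to those of `f^A`.

Proof. The automorphism of `PP` with `𝓔 ↦ A' 𝓔` (i.e. `X_(i,j) ↦ Σ_l A'_il X_(l,j)`), `y ↦ y` extends
to `LL` and to the algebraic closure, and maps `f = 𝓔 y(𝓔⁻¹ x)` to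
`A' 𝓔 y(𝓔⁻¹ A x) = A' f(A x)`. -/
def S_EXTB : Prop :=
  ∀ (k : Type u) [Field k] [CharZero k] (n d : ℕ) (c : Cf n d → k)
    (A A' : Matrix (Fin n) (Fin n) k), A * A' = 1 → ∃ σ, SymA c A A' σ

/-- FINS (depends on INT). The system `f(E e_i) = E G e_i` has only finitely many solutions `E` over a
field, if `f` is strongly nondegenerate.

Proof. `𝒜 = K[E_li] / (equations)`; by INT (`O = K`, `Ω = 𝒜`, the generic solution) the generators
are integral over `K`, so `𝒜` is a finite-dimensional `K`-algebra and has only finitely many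
`K`-algebra homomorphisms to `K`; these are the solutions. -/
def S_FINS : Prop :=
  ∀ (K : Type u) [Field K] (n d : ℕ), 2 ≤ d → ∀ c : Cf n d → K, Strong c →
    ∀ G : Matrix (Fin n) (Fin n) K,
      {E : Matrix (Fin n) (Fin n) K | ∀ i : Fin n, ev c (fun l => E l i) =
        E *ᵥ fun j => G j i}.Finite

/-- SOLI (depends on INT, NDG, THETA). The generic point `f` is strongly nondegenerate, and the entries
of the solutions `E` are integral over the local ring of `V` at every nondegenerate point `v`.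

Proof. Let `O` be the localisation of `k[V] = Pol` at `v`, a local ring with residue field `k`. By NDG the
generic point `X : Cf → O` is `Strong` over `O`. `θ` extends to `O → OM` (`θ` is injective by THETA) with
image in `Ov c v`, and `X ↦ f`. So `genf c` is `Strong` over `OM`, and INT applies (`O`, `Ω = OM`). -/
def S_SOLI : Prop :=
  ∀ (k : Type u) [Field k] [IsAlgClosed k] [CharZero k] (n d : ℕ), 2 ≤ d →
    ∀ c v : Cf n d → k, Transv c → Nondeg v →
      Strong (genf c) ∧ ∀ E, Sol c E → ∀ l i, IsIntegral (Ov c v) (E l i)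

/-- DESC (depends on BASE, THETA, EXTB). Let `a ∈ OM` with `det(A)^b σ(a) = a` for all `A ∈ GL_n(k)` and
all automorphisms `σ` of `OM` mapping `f` to `f^A`, and let `a` be integral over the local rings of `V` at
`v1` and `v2`. Then `a = θ(P)/θ(Q)` with `P/Q` semi-invariant and `Q(v1), Q(v2) ≠ 0`.

Proof. `A = 1`: `a` is fixed by all automorphisms of `OM` over `θ(k(V))`, and it is algebraic over
`θ(k(V))` (integral). The minimal polynomial has only the root `a` (automorphisms of the algebraic closure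
of `θ(k(V))` extend to `OM`), so that `a ∈ θ(k(V))` (char 0). `a = θ(P)/θ(Q)` with `P`, `Q` coprime
(`k[V]` is a UFD). `a` is integral over the localisation of `k[V]` at `v1`, which is integrally closed
(`θ` is injective), so `P/Q` is in it: `P/Q = P₁/Q₁`, `Q₁(v1) ≠ 0`, and `Q ∣ Q₁`. So `Q(v1) ≠ 0`, and
`Q(v2) ≠ 0`. Let `A ∈ GL_n(k)`, `σ` from EXTB; `σ(θ(P)) = P(f^A) = θ(P(· ^A))` (BASE (5)), so
`det(A)^b θ(P(·^A)) θ(Q) = θ(P) θ(Q(·^A))`, and by injectivity
`P(c) Q(c^A) = det(A)^b P(c^A) Q(c)` for all `c`. -/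
def S_DESC : Prop :=
  ∀ (k : Type u) [Field k] [IsAlgClosed k] [CharZero k] (n d : ℕ), 2 ≤ d →
    ∀ c : Cf n d → k, Transv c → ∀ (v1 v2 : Cf n d → k) (b : ℕ) (a : OM n d k),
      (∀ (A A' : Matrix (Fin n) (Fin n) k) (σ : OM n d k ≃+* OM n d k), A * A' = 1 →
        SymA c A A' σ → algebraMap k (OM n d k) A.det ^ b * σ a = a) →
      IsIntegral (Ov c v1) a → IsIntegral (Ov c v2) a →
      ∃ P Q : Pol n d k, Semi b P Q ∧ eval v1 Q ≠ 0 ∧ eval v2 Q ≠ 0 ∧
        a * thetaO c Q = thetaO c P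

/-- PLACE. There are places at every point `(1, w)`.

Proof. Let `O'` be the localisation of `PP` at the point `(1, w)` (kernel of `evalOne w`), as a subring of
`OM`, and `ring` its integral closure in `OM`. There is a maximal ideal of `ring` over the one of
`O'`; the residue field is algebraic over `O'/𝔪 = k`, hence equal to `k` (algebraically closed). -/
def S_PLACE : Prop :=
  ∀ (k : Type u) [Field k] [IsAlgClosed k] (n d : ℕ) (w : Rest n d → k), Nonempty (Place w)

/-- OVP (may use S_BASE). A place at `(1, w)` is defined on `θ(P)` with the value `P(glue c w)`, and on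
`θ(P)⁻¹` if this is not 0.

Proof. `det 𝓔` has the value 1 at `(1, w)`. The coordinates of `f` are polynomials in the entries of `𝓔`,
in `(det 𝓔)⁻¹` and the coordinates of `y`, and for `𝓔 = 1` they are those of `y`
(`conj 1 1 y = y`). Write `θ(P) = N / (det 𝓔)^j`, `N ∈ PP`; `evalOne w N = P(glue c w)`. -/
def S_OVP : Prop :=
  ∀ (k : Type u) [Field k] [CharZero k] (n d : ℕ) (c : Cf n d → k) (w : Rest n d → k)
    (pl : Place w) (P : Pol n d k),
    ∃ h : thetaO c P ∈ pl.ring, pl.hom ⟨_, h⟩ = eval (glue c w) P ∧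
      (eval (glue c w) P ≠ 0 → (thetaO c P)⁻¹ ∈ pl.ring)

/-- UNIQ (depends on BASE, OVP). Two solutions which specialise to the identity matrix are equal, if
`glue c w` is transversal.

Proof. The coordinates of `f` lie in `pl.ring` and specialise to those of `y₀ = glue c w` (OVP with
`P = X_a`). Put `H = E' - E`. Taylor (BASE (7), with the subring `pl.ring`) at `E e_i`:
`0 = Df(E e_i) H e_i - H c(e_i) + Σ_(s,t) H_si H_ti h_i(s,t)`, `h_i(s,t) ∈ pl.ring`: a homogeneous linear
system for the `n²` entries of `H` with the coefficients in `pl.ring` (in the quadratic terms regard one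
factor `H_si`, which specialises to 0, as coefficient). The matrix of the system specialises to
that of `B ↦ (Dy₀(e_i) B e_i - B y₀(e_i))_i` (`c(e_i) = y₀(e_i)`), which has a nonzero determinant by
transversality. So the determinant of the system is not 0 and `H = 0`. -/
def S_UNIQ : Prop :=
  ∀ (k : Type u) [Field k] [CharZero k] (n d : ℕ), 2 ≤ d →
    ∀ (c : Cf n d → k) (w : Rest n d → k), Transv (glue c w) → ∀ (pl : Place w)
      (E E' : Matrix (Fin n) (Fin n) (OM n d k)), Sol c E → Sol c E' →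
      ∀ (hE : ∀ l i, E l i ∈ pl.ring) (hE' : ∀ l i, E' l i ∈ pl.ring),
        (∀ l i, pl.hom ⟨_, hE l i⟩ = if l = i then 1 else 0) →
        (∀ l i, pl.hom ⟨_, hE' l i⟩ = if l = i then 1 else 0) → E = E'

/-- TT (depends on BASE, SOLI, FINS, DESC, PLACE, OVP). At a nondegenerate transversal `c` there is a
semi-invariant `T = T1/T2` of positive weight `b`, regular and nonzero at `c`.

Proof. `Z = {E : Sol c E}` is finite (SOLI, FINS) and contains `𝓔`. If `SymA c A A' σ` and `E ∈ Z`, then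
`A σ(E) ∈ Z`: `σ` applied to `f(E e_i) = E c(e_i)` gives `A' f(A σ(E) e_i) = σ(E) c(e_i)`; this is
a bijection `Z → Z`. Let `e_j` be the elementary symmetric functions of the `det E`, `E ∈ Z` (coefficients
of `∏ (X + det E)`). `σ(e_j) = e_j(det(A)⁻¹ det(A σ(E))) = det(A)^(-j) e_j`. They are integral over
`Ov c c` (SOLI). By DESC (`v1 = v2 = c`), `e_j = θ(P_j)/θ(Q_j)`, `Q_j(c) ≠ 0`, semi-invariant of weight
`j`. Take a place at `w = rest c` (`glue c w = c`); all `E ∈ Z` have entries in `pl.ring` (integral over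
`Ov c c ⊂ pl.ring`, OVP). The specialisation of `∏ (X + det E)` has the root `-1` (from `E = 𝓔 ↦ 1`).
If `P_j(c) = 0` for all `j ≥ 1`, it would be `X^#Z`. So `P_j(c) ≠ 0` for some `j ≥ 1`. -/
def S_TT : Prop :=
  ∀ (k : Type u) [Field k] [IsAlgClosed k] [CharZero k] (n d : ℕ), 2 ≤ d →
    ∀ c : Cf n d → k, Nondeg c → Transv c →
      ∃ (b : ℕ) (T1 T2 : Pol n d k), 1 ≤ b ∧ Semi b T1 T2 ∧ eval c T1 ≠ 0 ∧ eval c T2 ≠ 0

/-- PSI (depends on BASE, SOLI, FINS, DESC, PLACE, OVP, UNIQ; the permutation `E ↦ A σ(E)` of the solutions as in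
TT). Let `c` and `y₀ = glue c w` be nondegenerate and transversal, let `y₀` have only scalar
automorphisms, and let `T = T1/T2` be semi-invariant of weight `b ≥ 1`, regular and nonzero at `c` and `y₀`.
There is a finite set `bad ∌ w` such that for all `R ∈ k[Rest]` which vanish on `bad` but not at `w` and all
`M` with `deg R < b M` the element `ψ = R(y) det(𝓔)^(bM) / T(f)^M` of `LL` is a root of a monic polynomial
with coefficients `θ(P_i)/θ(Q_i)`, invariant and regular at `c` and `y₀`, whose derivative at `ψ` does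
not vanish at `(1, w)`.

Proof. Let `Z` be the finite set of the `E` with `Sol c E`, `Z₀` the finite set of the `E₀` over `k` with
`y₀(E₀ e_i) = E₀ c(e_i)` (FINS; `y₀` is `Strong` by NDG or by Nullstellensatz), `bad` the set of the
`rest (conj E₀ E₀⁻¹ y₀) ≠ w`, `E₀ ∈ Z₀` invertible. For `E ∈ Z` put
`ψ(E) = R(rest (E⁻¹ ∘ f ∘ E)) det(E)^(bM) / T(f)^M` if `det E ≠ 0`, and 0 otherwise. Since
`deg R < bM`, `T(f)^M ψ(E)` is a polynomial in the entries of `E`, the coordinates of `f` and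
`E^ad` (with a factor `det E`): `rest(E⁻¹ f E) = rest(E^ad f(Ex)) / det E`. So `ψ(E)` is integral over
`Ov c c` and `Ov c y₀` (SOLI). For `SymA c A A' σ`: `σ(ψ(E)) = ψ(A σ(E))`, because
`σ(E)⁻¹ f^A σ(E) = (A σ(E))⁻¹ f (A σ(E))`, `det(σ(E)) = det(A)⁻¹ det(A σ(E))` and
`σ(T(f)) = T(f^A) = det(A)^(-b) T(f)`. So the coefficients of `∏ (X - s)`, `s ∈ Θ = {ψ(E) : E ∈ Z}` (a
finite set, without multiplicities), satisfy DESC with the weight 0, `v1 = c`, `v2 = y₀` (integral,
as the `s` are). `𝓔 ∈ Z` and `ψ(𝓔) = ψ`, so `ψ` is a root. Derivative at `ψ`: `∏_(s ≠ ψ) (ψ - s)`. Take a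
place `pl` at `(1, w)`; all `E ∈ Z` have entries in `pl.ring`, let `Ē` be the specialisation, `Ē ∈ Z₀`. We
show that `pl(s) ≠ pl(ψ) = R(w)/T(y₀)^M ≠ 0` for `s = ψ(E) ≠ ψ`. If `det Ē = 0`, then `pl(ψ(E)) = 0`
(factor `det E`). If `det Ē ≠ 0` and `rest (Ē⁻¹ y₀ Ē) ≠ w`, it is in `bad`, and `pl(ψ(E)) = 0` as `R`
vanishes there. Otherwise `Ē⁻¹ y₀ Ē = y₀` (same coefficients at the `x_i^d`, because `Ē ∈ Z₀`), so
`Ē = r` is a scalar, `r^(d-1) = 1` (`y₀ ≠ 0`); `r⁻¹ E ∈ Z` specialises to 1, and so does `𝓔`. By UNIQ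
`E = r 𝓔` and `ψ(E) = r^(nbM) ψ`. As `ψ(E) ≠ ψ`, `r^(nbM) ≠ 1` and `pl(ψ(E)) ≠ pl(ψ)`. The
coefficients of `∏ (X - s)` are `θ(P_i)/θ(Q_i)` and specialise to `P_i(y₀)/Q_i(y₀)`. -/
def S_PSI : Prop :=
  ∀ (k : Type u) [Field k] [IsAlgClosed k] [CharZero k] (n d : ℕ), 2 ≤ n → 2 ≤ d →
    ∀ (c : Cf n d → k) (w : Rest n d → k), Nondeg c → Transv c → Nondeg (glue c w) →
      Transv (glue c w) →
      (∀ A A' : Matrix (Fin n) (Fin n) k, A * A' = 1 → Fixes A (glue c w) →
        ∃ r : k, A = r • (1 : Matrix (Fin n) (Fin n) k)) →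
      ∀ (b : ℕ) (T1 T2 : Pol n d k), 1 ≤ b → Semi b T1 T2 → eval c T1 ≠ 0 → eval c T2 ≠ 0 →
        eval (glue c w) T1 ≠ 0 → eval (glue c w) T2 ≠ 0 →
      ∃ bad : Finset (Rest n d → k), w ∉ bad ∧
        ∀ (R : MvPolynomial (Rest n d) k) (M : ℕ), (∀ z ∈ bad, eval z R = 0) → eval w R ≠ 0 →
          R.totalDegree < b * M →
          ∃ (m : ℕ) (P Q : Fin m → Pol n d k),
            (∀ i, Invt (P i) (Q i) ∧ eval c (Q i) ≠ 0 ∧ eval (glue c w) (Q i) ≠ 0) ∧
            (∀ ψ : LL n d k,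
              ψ = algebraMap (PP n d k) (LL n d k) (rename Sum.inr R) *
                (genE n d k).det ^ (b * M) / (theta c T1 / theta c T2) ^ M →
              ψ ^ m + ∑ i : Fin m, theta c (P i) / theta c (Q i) * ψ ^ (i : ℕ) = 0) ∧
            (∀ ψ₀ : k,
              ψ₀ = eval w R / (eval (glue c w) T1 / eval (glue c w) T2) ^ M →
              (m : k) * ψ₀ ^ (m - 1) + ∑ i : Fin m, ((i : ℕ) : k) *
                (eval (glue c w) (P i) / eval (glue c w) (Q i)) * ψ₀ ^ ((i : ℕ) - 1) ≠ 0)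

/-- FAM (depends on BASE, PSI). In the situation of PSI there is a family of invariant functions, regular at
`c` and at `y₀ = glue c w`, whose Jacobian determinant in the directions of the slice is not 0 at `y₀`.

Proof. Let `U ⊂ k^Rest` be the span of the vectors `(grad P Q ρ (y₀))_ρ` for the invariant pairs `(P, Q)` with
`Q(c), Q(y₀) ≠ 0`. We show `U = ⊤`; then some of these vectors form a basis and their determinant is
not 0. For `R`, `M`, `ψ`, `P_i`, `Q_i` as in PSI apply the derivation `∂_ρ = ∂/∂X_(inr ρ)` of `LL` to the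
equation of `ψ` and evaluate at `(1, w)` (all functions are fractions whose denominators do not vanish at
`(1, w)`; `∂_ρ (θ(P)) ` at `(1, w)` is `(∂P/∂c_ρ)(y₀)`: chain rule,
`∂_ρ f_a` at `𝓔 = 1` is 1 for `a = ρ` and 0 otherwise, because
`f = conj 𝓔⁻¹ 𝓔 y` is linear in `y` (BASE (6)) and `conj 1 1 = id`):
`Σ_i ∂_ρ(P_i/Q_i)(y₀) ψ₀^i + (derivative of the polynomial at ψ₀) · ∂_ρψ(1, w) = 0`. So the vector
`Δ_R = (∂_ρψ(1, w))_ρ = (T^(-M) ∂_ρR(w) + R(w) ∂_ρ(T^(-M))(y₀))_ρ` lies in `U`. Let `R₀` vanish on `bad`,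
`R₀(w) = 1`, and `R₁ = R₀ (X_ρ - w_ρ)`, `M` large. `Δ_(R₀+R₁) - Δ_(R₀)` is `T^(-M)` times the
gradient of `R₁` at `w`, i.e. `T(y₀)^(-M) e_ρ ∈ U`. -/
def S_FAM : Prop :=
  ∀ (k : Type u) [Field k] [IsAlgClosed k] [CharZero k] (n d : ℕ), 2 ≤ n → 2 ≤ d →
    ∀ (c : Cf n d → k) (w : Rest n d → k), Nondeg c → Transv c → Nondeg (glue c w) →
      Transv (glue c w) →
      (∀ A A' : Matrix (Fin n) (Fin n) k, A * A' = 1 → Fixes A (glue c w) →
        ∃ r : k, A = r • (1 : Matrix (Fin n) (Fin n) k)) →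
      ∀ (b : ℕ) (T1 T2 : Pol n d k), 1 ≤ b → Semi b T1 T2 → eval c T1 ≠ 0 → eval c T2 ≠ 0 →
        eval (glue c w) T1 ≠ 0 → eval (glue c w) T2 ≠ 0 →
      ∃ P Q : Rest n d → Pol n d k,
        (∀ ρ, Invt (P ρ) (Q ρ) ∧ eval c (Q ρ) ≠ 0 ∧ eval (glue c w) (Q ρ) ≠ 0) ∧
        eval (glue c w) (Jac P Q) ≠ 0

end Pool.Agent.D0H90.SM
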