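import Pool.Agent.D0H90.SM.Defs

set_option autoImplicit false

/-!
# Project SM (MP_807a54_ag): the singular points of the moduli space of endomorphisms of `P^N`

Goal: `k` algebraically closed of characteristic 0, `n = N + 1 ≥ 3`, `d ≥ 2`. If `f` is a nondegenerate
tuple with a non-scalar automorphism, then the local ring of the moduli space at the class of `f`
(invariant rational functions regular at `f`) has a cotangent space of dimension `≠ dim`.

First batch of modules. Each is a proposition `S_XYZ`; the theorem to prove is `t_XYZ : S_XYZ`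
(or `S_BASE → ... → S_XYZ`, with the named dependencies), over Mathlib and `Defs.lean`.
-/

namespace Pool.Agent.D0H90.SM

open MvPolynomial Matrix

universe u

/-- `e_i`, the standard basis vector. -/
abbrev bas {n : ℕ} {R : Type*} [CommRing R] (i : Fin n) : Fin n → R := Pi.single i 1

/-- Transversality: the map `B ↦ (Df(e_i) B e_i - B f(e_i))_i` is injective. -/
def Transv {n d : ℕ} {K : Type*} [Field K] (c : Cf n d → K) : Prop :=
  ∀ B : Matrix (Fin n) (Fin n) K,
    (∀ i, dev c (bas i) (B *ᵥ bas i) = B *ᵥ ev c (bas i)) → B = 0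

/-- Some power of every variable lies in the ideal of the forms. -/
def Strong {n d : ℕ} {O : Type*} [CommRing O] (c : Cf n d → O) : Prop :=
  ∃ M : ℕ, ∀ l : Fin n, (X l : MvPolynomial (Fin n) O) ^ M ∈
    Ideal.span (Set.range (ev (fun b => (C (c b) : MvPolynomial (Fin n) O)) X))

/-- BASE (all easy; used by the other modules).
(1) value of a conjugate; (2) a tuple of forms is determined by its values (infinite field);
(3), (4), (5) compatibility with ring homomorphisms; (6) conjugation is linear in `c` (follows from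
(1), (2), but here over every ring: look at the definition);
(7) Taylor: `ev c (x + y) = ev c x + dev c x y + (terms of degree ≥ 2 in y)`, in the form: there are
`h_i : Fin n → Fin n → R` (depending on `c, x, y`) with
`ev c (x + y) i = ev c x i + dev c x y i + Σ_{s,t} y_s y_t h_i(s,t)`, where `h_i(s,t)` lies in the
subring generated by the `c`, `x`, `y`; (8) Euler: `dev c x x = d • ev c x`; (9) the chain rule for
conjugates. -/
def S_BASE : Prop :=
  (∀ (R : Type u) [CommRing R] (n d : ℕ) (c : Cf n d → R) (A A' : Matrix (Fin n) (Fin n) R)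
    (x : Fin n → R), ev (conj A A' c) x = A' *ᵥ ev c (A *ᵥ x)) ∧
  (∀ (K : Type u) [Field K] [Infinite K] (n d : ℕ) (c c' : Cf n d → K),
    (∀ x, ev c x = ev c' x) → c = c') ∧
  (∀ (R S : Type u) [CommRing R] [CommRing S] (φ : R →+* S) (n d : ℕ) (c : Cf n d → R)
    (x : Fin n → R), ev (fun a => φ (c a)) (fun l => φ (x l)) = fun i => φ (ev c x i)) ∧
  (∀ (R S : Type u) [CommRing R] [CommRing S] (φ : R →+* S) (n d : ℕ) (c : Cf n d → R)
    (x y : Fin n → R), dev (fun a => φ (c a)) (fun l => φ (x l)) (fun l => φ (y l)) =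
      fun i => φ (dev c x y i)) ∧
  (∀ (R S : Type u) [CommRing R] [CommRing S] (φ : R →+* S) (n d : ℕ) (c : Cf n d → R)
    (A A' : Matrix (Fin n) (Fin n) R), conj (A.map φ) (A'.map φ) (fun a => φ (c a)) =
      fun a => φ (conj A A' c a)) ∧
  (∀ (R : Type u) [CommRing R] (n d : ℕ) (c c' : Cf n d → R) (r : R)
    (A A' : Matrix (Fin n) (Fin n) R), conj A A' (fun a => c a + r * c' a) =
      fun a => conj A A' c a + r * conj A A' c' a) ∧
  (∀ (R : Type u) [CommRing R] (n d : ℕ) (c : Cf n d → R) (x y : Fin n → R)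
    (S : Subring R), (∀ a, c a ∈ S) → (∀ l, x l ∈ S) → (∀ l, y l ∈ S) →
    ∃ h : Fin n → Fin n → Fin n → R, (∀ i s t, h i s t ∈ S) ∧ ∀ i,
      ev c (x + y) i = ev c x i + dev c x y i + ∑ s, ∑ t, y s * y t * h i s t) ∧
  (∀ (R : Type u) [CommRing R] (n d : ℕ) (c : Cf n d → R) (x : Fin n → R),
    dev c x x = fun i => (d : R) * ev c x i) ∧
  (∀ (R : Type u) [CommRing R] (n d : ℕ) (c : Cf n d → R) (A A' : Matrix (Fin n) (Fin n) R)
    (x y : Fin n → R), dev (conj A A' c) x y = A' *ᵥ dev c (A *ᵥ x) (A *ᵥ y))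

open Classical in
/-- COMB. For `n ≥ 3`, `d ≥ 2` and non-zero scalars `λ_1, …, λ_n`, not all equal:
`#{(i, j) : λ_i ≠ λ_j} + 2 ≤ #{(i, m) : λ^m ≠ λ_i}` (`m` runs over the exponents of degree `d`).

Proof. Put `r_i = #{j : λ_j ≠ λ_i} ≤ n - 1` and `L_i = #{m : λ^m ≠ λ_i}`; the claim is
`Σ L_i ≥ Σ r_i + 2`. Choose `p, q` with `λ_p ≠ λ_q`. For a monomial `m'` of degree `d - 1` at most one
of `x_p m'`, `x_q m'` has the value `t`. The pairs `{x_p m', x_q m'}` for `m' = x_l x_p^(d-2)`
(`l ≠ p, q`) and `m' = x_p^(d-1)`, and, if `d ≥ 3`, `m' = x_q^(d-1)`, are disjoint. So `L_i ≥ n - 1`,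
and `L_i ≥ n` if `d ≥ 3`. If `d ≥ 3`, then `L_i ≥ r_i + 1` for all `i` and we are done as `n ≥ 3`.
Let `d = 2`. If `λ_a = λ_b` for some `a ≠ b`, then `r_a, r_b ≤ n - 2`, so that `L_i ≥ r_i` for all `i`
and `L_a ≥ r_a + 1`, `L_b ≥ r_b + 1`. If all `λ_i` are different, then for given `t` the monomials
`x_j x_l` (`j ≤ l`) of the value `t` inject into `{1, …, n}` by `j`, so that
`L_i ≥ n (n + 1) / 2 - n = n (n - 1) / 2 ≥ n ≥ r_i + 1`. (Or: among `x_p x_q, x_p x_r, x_q x_r` at
most one has the value `t`, among `x_p², x_q², x_r²` at most two, and `n - 3` pairs `x_l x_p, x_l x_q`.) -/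
def S_COMB : Prop :=
  ∀ (K : Type u) [Field K] (n d : ℕ), 3 ≤ n → 2 ≤ d → ∀ lam : Fin n → K, (∀ i, lam i ≠ 0) →
    (¬ ∀ i j, lam i = lam j) →
    Fintype.card {p : Fin n × Fin n // lam p.1 ≠ lam p.2} + 2 ≤
      Fintype.card {a : Cf n d // mon a.2 lam ≠ lam a.1}

/-- INJ. If `f` is nondegenerate and `Df(x) Bx = B f(x)` for all `x`, then `B = 0`
(`K` algebraically closed of characteristic 0, `d ≥ 2`).

Proof. Let `B v = λ v`, `v ≠ 0`. Then `B f(v) = Df(v)(λ v) = λ d f(v)` (Euler) and `f(v) ≠ 0`: `d λ` is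
an eigenvalue. So `λ, d λ, d² λ, …` are eigenvalues, hence `λ = 0` (char 0, `d ≥ 2`). So `B` is
nilpotent. Let `B ≠ 0`, `r ≥ 1` maximal with `B^r ≠ 0`. Put `g(t) = f(exp(tB) x) - exp(tB) f(x)`,
a polynomial in `t` with values in `K^n`. With `y = exp(tB) x` one has
`g'(t) = Df(y) B y - B exp(tB) f(x) = B f(y) - B exp(tB) f(x) = B g(t)` and `g(0) = 0`, so that
`g = 0` (polynomial, char 0). Choose `x` with `B^r x ≠ 0`. The coefficient of `t^(rd)` of
`f(exp(tB) x)` is `f(B^r x / r!) ≠ 0`, but `exp(tB) f(x)` has degree `≤ r < rd` in `t`. Contradiction.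
(Without exponentials: one may also argue with `K`-linear maps on polynomials; use whatever is
easiest, e.g. compare with the ODE for coefficients `B^j x / j!`.) -/
def S_INJ : Prop :=
  ∀ (K : Type u) [Field K] [IsAlgClosed K] [CharZero K] (n d : ℕ), 2 ≤ d →
    ∀ c : Cf n d → K, Nondeg c → ∀ B : Matrix (Fin n) (Fin n) K,
      (∀ x, dev c x (B *ᵥ x) = B *ᵥ ev c x) → B = 0

/-- ORD. An invertible matrix `A` with `f(Ax) = A f(x)`, `f` nondegenerate, has finite order.

Proof. Eigenvalues: `A v = λ v` gives `A f(v) = f(λ v) = λ^d f(v)`, `f(v) ≠ 0`; so `λ, λ^d, λ^(d²), …`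
are eigenvalues; two are equal: `λ^(d^i) = λ^(d^j)`, `i < j`, `λ ≠ 0`: `λ` is a root of unity. Let `U` be
a power of `A` with all eigenvalues 1: `U = 1 + N`, `N` nilpotent, and `f(U x) = U f(x)`. If `N ≠ 0`,
let `r ≥ 1` be maximal with `N^r ≠ 0`, choose `x` with `N^r x ≠ 0`. For natural numbers `t`,
`U^t x = Σ_j binom(t, j) N^j x` and `f(U^t x) = U^t f(x)`: both sides are polynomials in `t`, the left
one with leading coefficient `f(N^r x / r!) ≠ 0` in degree `rd`, the right one of degree `≤ r`.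
Contradiction (`d ≥ 2`). -/
def S_ORD : Prop :=
  ∀ (K : Type u) [Field K] [IsAlgClosed K] [CharZero K] (n d : ℕ), 2 ≤ d →
    ∀ c : Cf n d → K, Nondeg c → ∀ A A' : Matrix (Fin n) (Fin n) K, A * A' = 1 → Fixes A c →
      ∃ M : ℕ, 0 < M ∧ A ^ M = 1

/-- CODIM (depends on BASE, COMB, INJ, ORD). Let `A` be invertible and not scalar, `f(Ax) = A f(x)`, `f`
nondegenerate, and `W` a space of tuples `v` with `v^A - v` in the tangent space
`{ξ_B : B}`, `ξ_B(x) = Df(x) Bx - B f(x)`, of the orbit. Then `codim W ≥ 2`.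

Proof. By ORD `A` is diagonalizable: `A = P Λ P⁻¹`. Replace `f, A, W, B` by
`f^P, Λ, W^P, P⁻¹ B P` (BASE (1), (9)); the statement for these gives the statement. So let
`A = Λ = diag(λ)`. Let `V₁ = {(i, m) : λ^m = λ_i}`. Then `(v^Λ)_(i,m) = λ_i⁻¹ λ^m v_(i,m)`, so
`v^Λ - v` has the coordinates 0 on `V₁`, and `c = c^Λ` is supported on `V₁`. Let `v ∈ W`,
`v^Λ - v = ξ_B`. Let `B₀` be the part of `B` with `λ_i = λ_j` (i.e. `B₀ i j = B i j` if
`λ_i = λ_j`, else 0). Then `ξ_(B₀)` is the part of `ξ_B` on `V₁` (coefficientwise: the coefficient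
`(i, m)` of `ξ_(E_ij)` lives in the weight `λ^m / λ_i = λ_j^(±1) / λ_i^(±1)`; or: `ξ_B^Λ =
ξ_(Λ⁻¹BΛ)`, average over the powers of `Λ`, which has finite order: `B₀ = (1/M) Σ_t Λ^(-t) B Λ^t` and the
`V₁`-part of `v` is `(1/M) Σ_t v^(Λ^t)`). So `ξ_(B₀) = 0` and `B₀ = 0` by INJ. So `v ↦ v^Λ - v` maps `W` to
`{ξ_B : B i j = 0 if λ_i = λ_j}`, a space of dimension `≤ #{(i,j) : λ_i ≠ λ_j}`, with kernel
in `K^(V₁)`; `dim W ≤ #V₁ + #{(i, j) : λ_i ≠ λ_j} ≤ #Cf - 2` by COMB. -/
def S_CODIM : Prop :=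
  ∀ (K : Type u) [Field K] [IsAlgClosed K] [CharZero K] (n d : ℕ), 3 ≤ n → 2 ≤ d →
    ∀ c : Cf n d → K, Nondeg c → ∀ A A' : Matrix (Fin n) (Fin n) K, A * A' = 1 → Fixes A c →
      (¬ ∃ r : K, A = r • (1 : Matrix (Fin n) (Fin n) K)) →
      ∀ W : Submodule K (Cf n d → K),
        (∀ v ∈ W, ∃ B : Matrix (Fin n) (Fin n) K, ∀ x : Fin n → K,
          ev v (A *ᵥ x) - A *ᵥ ev v x = A *ᵥ (dev c x (B *ᵥ x) - B *ᵥ ev c x)) →
        Module.finrank K W + 2 ≤ Fintype.card (Cf n d)

/-- NDG. Let `O` be a local ring with residue field `k` (algebraically closed), `π : O → k`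
surjective. If the reduction of `c` is nondegenerate, then some power of every variable lies in the
ideal of the forms over `O`.

Proof. Over `k`: Nullstellensatz, some `X_l^M` lies in the ideal `I(k)` of the forms, for all `l`. Then
all monomials of degree `D = n M` (or `n (M - 1) + 1`) lie in `I(k)`, and the homogeneous part of degree `D`
of `I(k)` is `Σ_j f_j · k[x]_(D-d)`. So the `O`-submodule `N = Σ_j f_j · O[x]_(D-d)` of the finitely
generated free module `O[x]_D` satisfies `N + 𝔪 O[x]_D = O[x]_D` (lift coefficients along the surjection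
`π`, whose kernel is the maximal ideal). Nakayama: `N = O[x]_D ∋ X_l^D`. -/
def S_NDG : Prop :=
  ∀ (O k : Type u) [CommRing O] [IsLocalRing O] [Field k] [IsAlgClosed k] (π : O →+* k),
    Function.Surjective π → ∀ (n d : ℕ) (c : Cf n d → O), Nondeg (fun a => π (c a)) → Strong c

/-- INT. Let `O → Ω` be commutative rings, `c` strongly nondegenerate over `O`, `d ≥ 2`, `G` a matrix over
`O`, and `E` a matrix over `Ω` with `f(E e_i) = E G e_i` for all `i`. Then all entries of `E` are
integral over `O`.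

Proof. `X_l^M = Σ_j g_lj(X) f_j(X)` over `O`; taking the homogeneous part of degree `M` we may assume
that `g_lj` is homogeneous of degree `M - d` (or 0). Evaluate at the `i`-th column of `E`:
`E_li^M = Σ_j g_lj(E e_i) (E G e_i)_j` is a polynomial in the entries of `E` over `O` of total degree
`≤ M - d + 1 < M`. So the `O`-module spanned by the monomials in the entries with all exponents `< M` is
stable under multiplication by the entries (induction on the total degree: a monomial with some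
exponent `≥ M` is a combination of monomials of smaller degree), i.e. `O[E]` is a finitely generated
`O`-module, and its elements are integral. -/
def S_INT : Prop :=
  ∀ (O Ω : Type u) [CommRing O] [CommRing Ω] [Algebra O Ω] (n d : ℕ), 2 ≤ d →
    ∀ c : Cf n d → O, Strong c → ∀ (G : Matrix (Fin n) (Fin n) O) (E : Matrix (Fin n) (Fin n) Ω),
      (∀ i : Fin n, ev (fun a => algebraMap O Ω (c a)) (fun l => E l i) =
        E *ᵥ fun j => algebraMap O Ω (G j i)) →
      ∀ l i, IsIntegral O (E l i)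

/-- DOM (depends on BASE, INT, NDG). For nondegenerate `f` some conjugate `f^A` is transversal.

Proof. Let `𝓔 = (X_li)` be the generic matrix over `F = K(X_li)` (fraction field of the
polynomial ring in `n²` variables) and `G = 𝓔⁻¹ f(𝓔)`, the matrix with `f(𝓔 e_i) = 𝓔 G e_i`. By INT
over `O = K[G_ij] ⊂ F` (or the subfield `K(G_ij)`), the `X_li` are integral over `O`, so that `F` is
algebraic over `K(G)`. Let the `n² × n²` matrix of the map
`B ↦ (Df^𝓔(e_i) B e_i - B f^𝓔(e_i))_i` (over `F`, `f^𝓔 = 𝓔⁻¹ f(𝓔 x)`) be singular, and `B ≠ 0` in its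
kernel. Let `∂` be the derivation of `F` over `K` with `∂𝓔 = 𝓔 B`. Then
`∂G e_i = -B 𝓔⁻¹ f(𝓔 e_i) + 𝓔⁻¹ Df(𝓔 e_i) 𝓔 B e_i = Df^𝓔(e_i) B e_i - B f^𝓔(e_i) = 0`.
So `∂` kills `K(G)`, hence everything algebraic over it (char 0), i.e. `∂ = 0`, but
`∂𝓔 = 𝓔 B ≠ 0`. So the determinant, a rational function of `𝓔` with denominator a power of
`det 𝓔`, is not 0; evaluate at a matrix `A` over the infinite field `K` at which `det 𝓔` and the
determinant do not vanish. -/
def S_DOM : Prop :=
  ∀ (K : Type u) [Field K] [IsAlgClosed K] [CharZero K] (n d : ℕ), 2 ≤ d →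
    ∀ c : Cf n d → K, Nondeg c →
      ∃ A A' : Matrix (Fin n) (Fin n) K, A * A' = 1 ∧ Transv (conj A A' c)

end Pool.Agent.D0H90.SM
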