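import Pool.Agent.D0H90.SM.Defs2

set_option autoImplicit false

/-!
# Project SM (MP_807a54_ag): second batch of modules

Read `Defs.lean`, `Defs2.lean`, and `Transv`, `Strong`, `bas`, `S_BASE` in `Stm.lean`.
-/

namespace Pool.Agent.D0H90.SM

open MvPolynomial Matrix

universe u

/-- INVK (may use S_BASE). Invariance at `k`-points implies invariance at points of all `k`-algebras; the
same for semi-invariance.

Proof. `Semi 0` is `Invt`. Let `𝒫 = k[A_ij, c_a]`, `D = det A`, `A^ad` the adjugate. For `N` large there is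
a polynomial `F ∈ 𝒫` with `F = D^N (P(c) Q(D⁻¹ A^ad c(Ax)) - D^b P(D⁻¹ A^ad c(Ax)) Q(c))` whenever
`D` is invertible (multiply out: `D^N Q(D⁻¹ w)` is a polynomial in `D`, `w` for `N ≥ deg Q`). `F D`
vanishes at all `k`-points (`k` infinite), so `F D = 0` and `F = 0`. Specialise `F` to `S`; there
`D` is a unit and `A' = D⁻¹ A^ad`. (Alternative: let `S₀ = 𝒫[1/D]`; both sides of the identity for the
generic `A` and `c` over the domain `S₀` agree at all `k`-points, hence agree, and `(A, A', c)` over `S`
is the image of the generic one under a `k`-algebra homomorphism `S₀ → S`.) -/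
def S_INVK : Prop :=
  ∀ (k : Type u) [Field k] [Infinite k] (n d b : ℕ) (P Q : Pol n d k), Semi b P Q →
    ∀ (S : Type u) [CommRing S] [Algebra k S] (A A' : Matrix (Fin n) (Fin n) S), A * A' = 1 →
      ∀ c : Cf n d → S, aeval c P * aeval (conj A A' c) Q =
        A.det ^ b * (aeval (conj A A' c) P * aeval c Q)

/-- ORB (may use S_BASE, S_INVK). Regularity and vanishing of an invariant rational function at `c` and at
the conjugate `c^A` are equivalent (one direction is enough, as `A` is arbitrary and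
`(c^A)^(A') = c`).

Proof. Let `F = P / Q` near `c`. Put `P' (v) = P(v^(A'))`, `Q'(v) = Q(v^(A'))`, polynomials:
`P' = aeval (conj (C A') (C A) X) P`. Then `P' / Q' = P / Q` by invariance (as polynomials: `k` is
infinite), `P'`, `Q'` are an invariant pair, and `Q'(c^A) = Q(c)`, `P'(c^A) = P(c)`. -/
def S_ORB : Prop :=
  ∀ (k : Type u) [Field k] [Infinite k] (n d : ℕ) (c : Cf n d → k)
    (A A' : Matrix (Fin n) (Fin n) k), A * A' = 1 → ∀ F : Rat n d k,
      (InvReg c F → InvReg (conj A A' c) F) ∧ (InvVan c F → InvVan (conj A A' c) F)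

/-- GRAD. Let `u_ρ = P_ρ / Q_ρ` generate the functions vanishing at `c` modulo products, and let the
Jacobian determinant of the `u_ρ` in the directions of the slice vanish at `c`. Then there is an
irreducible polynomial `p` on the slice with `p(c) = 0` which divides the (numerator of the) Jacobian
determinant, restricted to the slice, of any family of invariant functions regular at `c`.

Proof. Let `O` be the local ring of `k[Rest]` at `rest c`, `𝔪` its maximal ideal. For
`h = P/Q` (`Q(c) ≠ 0`) let `∇h ∈ O^Rest` be the vector of the `res c (grad P Q ρ) / res c (Q)²`; it depends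
only on the fraction `h`, is `k`-linear in `h`, and `∇(gh) = g ∇h + h ∇g`. Claim: `∇h` lies in
`N = Σ O ∇u_ρ` for all invariant `h` regular at `c`. Subtract the constant `h(c)`. By `Gens`, for all
`j`: `h ∈ (polynomials in the u_ρ without constant term) + (combinations of products of j + 1 functions
vanishing at c)` (induction: replace each factor of a product of `j` functions by
`Σ a_ρ u_ρ +` element of `Sq`). Therefore `∇h ∈ N + 𝔪^j O^Rest` for all `j`, and `∇h ∈ N` by Krull's
intersection theorem for the module `O^Rest / N` over the Noetherian local ring `O`. So for a family `h_ρ`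
the matrix of the `∇h_ρ` is a matrix over `O` times the matrix of the `∇u_ρ`, and `det ∇h = a det ∇u`, `a ∈ O`.
So `s · res c (Jac P' Q') = b · res c (Jac P Q)` with polynomials `s, b`, `s(c) ≠ 0`. If
`res c (Jac P Q) ≠ 0`, it has an irreducible factor `p` vanishing at `rest c`; if it is 0 let
`p = X_ρ - c_ρ` (`Rest` is not empty: `n, d ≥ 2`). `p` does not divide `s`, so it divides
`res c (Jac P' Q')`. -/
def S_GRAD : Prop :=
  ∀ (k : Type u) [Field k] [IsAlgClosed k] [CharZero k] (n d : ℕ), 2 ≤ n → 2 ≤ d →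
    ∀ (c : Cf n d → k) (u : Rest n d → Rat n d k), Gens c u →
    ∀ P Q : Rest n d → Pol n d k,
      (∀ ρ, Invt (P ρ) (Q ρ) ∧ eval c (Q ρ) ≠ 0 ∧ eval c (P ρ) = 0 ∧
        u ρ * algebraMap _ (Rat n d k) (Q ρ) = algebraMap _ (Rat n d k) (P ρ)) →
      eval c (Jac P Q) = 0 →
      ∃ p : MvPolynomial (Rest n d) k, Irreducible p ∧ eval (rest c) p = 0 ∧
        ∀ P' Q' : Rest n d → Pol n d k,
          (∀ ρ, Invt (P' ρ) (Q' ρ) ∧ eval c (Q' ρ) ≠ 0) → p ∣ res c (Jac P' Q')

/-- J0 (depends on BASE, CODIM, INVK). At a nondegenerate transversal `c` with a non-scalar automorphism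
`A` the Jacobian determinant of any family of invariants in the directions of the slice vanishes.

Proof. For an invariant pair `(P, Q)` let `D(v) = Σ_a (Q(c) ∂_a P(c) - P(c) ∂_a Q(c)) v_a`.
(i) `D(v^A) = D(v)`: differentiate `P(c + tv) Q((c + tv)^A) = P((c + tv)^A) Q(c + tv)` at `t = 0`, where
`(c + tv)^A = c + t v^A` as `c^A = c`. (ii) `D(ξ) = 0` if `ξ = ξ_B`, i.e. `ξ(x) = Dc(x) Bx - B c(x)`:
INVK over `S = k[ε]` (or `k[t]/(t²)`, universe-lifted as needed) with `1 + εB`, inverse `1 - εB`, gives
`P(c) Q(c + ε ξ) = P(c + ε ξ) Q(c)`. The subspace `T = {ξ_B}` has dimension `n²` and meets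
`k^Rest` (tuples with zero coefficients at the `x_i^d`) in 0 by transversality; since there are `n²`
coefficients at the `x_i^d`, `V = T ⊕ k^Rest` (the map `B ↦` (values of `ξ_B` at the `e_i`) is injective,
hence bijective). Assume `Jac ≠ 0` at `c`. Let `v ∈ V`, `v^A - v = t + r`. All `D_ρ(v^A - v) = 0`, so
`D_ρ(r) = 0` for all `ρ`, and `r = 0`. So every `v ∈ V` satisfies the condition of CODIM
(apply `A` to `v^A - v = ξ_B`), and `W = ⊤` gives a contradiction. -/
def S_J0 : Prop :=
  ∀ (k : Type u) [Field k] [IsAlgClosed k] [CharZero k] (n d : ℕ), 3 ≤ n → 2 ≤ d →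
    ∀ c : Cf n d → k, Nondeg c → Transv c →
    ∀ A A' : Matrix (Fin n) (Fin n) k, A * A' = 1 → Fixes A c →
      (¬ ∃ r : k, A = r • (1 : Matrix (Fin n) (Fin n) k)) →
      ∀ P Q : Rest n d → Pol n d k, (∀ ρ, Invt (P ρ) (Q ρ)) → eval c (Jac P Q) = 0

/-- GEN (depends on BASE, CODIM, NDG). Let `p` be an irreducible polynomial on the slice through a
nondegenerate transversal `c`, `p(c) = 0`. The generic point `y` of `p = 0` (over an algebraic closure
`Ω` of the fraction field `κ` of `k[Rest]/(p)`) is nondegenerate, transversal, and has only scalar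
automorphisms.

Proof. Let `O ⊂ κ` be the local ring of `k[Rest]/(p)` at `rest c` (the fractions `φ a / φ b`,
`b(c) ≠ 0`; evaluation at `rest c` is well defined as `p(c) = 0`). Nondegenerate: NDG over `O` gives
`Strong`, hence no common zero over `Ω`. Transversal: the determinant of the `n² × n²` matrix of
`B ↦ (Dy(e_i) B e_i - B y(e_i))_i` is `φ` of a polynomial in the coordinates of the slice whose value at
`rest c` is not 0. Let `A` be an invertible nonscalar matrix over `Ω` with `y(Ax) = A y(x)`.
Let `v ∈ κ^Rest` with `Σ_ρ φ(∂_ρ p) v_ρ = 0`. It defines a `k`-derivation `k[Rest]/(p) → κ`,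
`F ↦ Σ φ(∂_ρ F) v_ρ`, which extends to `κ` and to `D : Ω → Ω` (algebraic, char 0; or: formally
étale). Apply `D` to the coefficients of `y(Ax) = A y(x)`; `Dy = ι v` (the tuple with the coefficients
`v` at Rest, 0 at the `x_i^d`). With `B = A⁻¹ D(A)`:
`(ιv)(Ax) + y'(Ax) A B x = A B y(x) + A (ιv)(x)`, and `y'(Ax) A = A y'(x)`, so that
`(ιv)(Ax) - A (ιv)(x) = A (B y(x) - y'(x) B x)`: the condition of CODIM holds for `ιv` (with `-B`). It
also holds for the tuples `ξ_B = (y'(x) B x - B y(x))` themselves
(`ξ_B(Ax) - A ξ_B(x) = A (ξ_(A⁻¹BA) - ξ_B)`), and it is linear. Let `W` be the span over `Ω`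
of these `ιv` and of the `ξ_B`. The `ιv` span a space of dimension `≥ #Rest - 1` over `Ω` (kernel of a
linear form over `κ`), the `ξ_B` a space of dimension `n²` which meets the image of `ι` in 0
(transversality). So `dim W ≥ #Rest - 1 + n² = #Cf - 1`, a contradiction to CODIM. (There are exactly
`n²` indices in `Cf` which are not in `Rest`.) -/
def S_GEN : Prop :=
  ∀ (k : Type u) [Field k] [IsAlgClosed k] [CharZero k] (n d : ℕ), 3 ≤ n → 2 ≤ d →
    ∀ c : Cf n d → k, Nondeg c → Transv c →
    ∀ p : MvPolynomial (Rest n d) k, Irreducible p → eval (rest c) p = 0 →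
    ∀ (κ Ω : Type u) [Field κ] [Field Ω] [Algebra κ Ω] [IsAlgClosure κ Ω]
      (φ : MvPolynomial (Rest n d) k →+* κ), RingHom.ker φ = Ideal.span {p} →
      (∀ t : κ, ∃ a b, φ b ≠ 0 ∧ t * φ b = φ a) →
      ∀ y : Cf n d → Ω,
        y = (fun a => algebraMap κ Ω (φ (glue (fun a => C (c a)) X a))) →
        Nondeg y ∧ Transv y ∧
          ∀ A A' : Matrix (Fin n) (Fin n) Ω, A * A' = 1 → Fixes A y →
            ∃ r : Ω, A = r • (1 : Matrix (Fin n) (Fin n) Ω)

/-- STAB (depends on BASE, NDG, GEN). There is a closed point `z` of `p = 0` on the slice, outside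
`g = 0` (`g(c) ≠ 0`), which is nondegenerate, transversal, and has only scalar automorphisms.

Proof. `R = k[Rest]`, `y = glue c X` the generic point of the slice. NDG over the local ring of `R` at
`rest c`, denominators cleared: there are `g₂ ∈ R`, `g₂(c) ≠ 0`, and `M` with `g₂ X_l^M ∈` ideal of the
forms of `y` over `R`; if `g₂(z) ≠ 0`, then `glue c z` is nondegenerate. Let `g₁` be the determinant of
the map of `Transv` for `y`; `g₁(c) ≠ 0`. Let `κ`, `Ω`, `φ` be as in GEN for `p`. For
`s ∈ {E_ij (i ≠ j), E_ii - E_jj}` let `I_s ⊂ R[E_ij, τ]` be the ideal generated by `p`, the coefficients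
of `y(Ex) - E y(x)` and `τ det(E) s - 1`. By GEN there is no zero over `Ω`, so that
`1 ∈ I_s · Ω[E, τ]` (Nullstellensatz), hence `1 ∈ I_s · κ[E, τ]` (linear algebra), and there is
`r_s ∈ R \ (p)` with `r_s ∈ I_s`. `p` is prime and does not divide `g g₁ g₂ ∏ r_s`, so by the
Nullstellensatz there is `z ∈ k^Rest` with `p(z) = 0` and `(g g₁ g₂ ∏ r_s)(z) ≠ 0`. If `A` is a
nonscalar invertible matrix with `Fixes A (glue c z)`, some `s(A) ≠ 0` and
`(A, τ = 1/(det(A) s(A)))` is a zero of the specialisation of `I_s` at `z`, but `r_s(z) ≠ 0`. -/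
def S_STAB : Prop :=
  ∀ (k : Type u) [Field k] [IsAlgClosed k] [CharZero k] (n d : ℕ), 3 ≤ n → 2 ≤ d →
    ∀ c : Cf n d → k, Nondeg c → Transv c →
    ∀ p g : MvPolynomial (Rest n d) k, Irreducible p → eval (rest c) p = 0 →
      eval (rest c) g ≠ 0 →
      ∃ z : Rest n d → k, eval z p = 0 ∧ eval z g ≠ 0 ∧ Nondeg (glue c z) ∧
        Transv (glue c z) ∧
        ∀ A A' : Matrix (Fin n) (Fin n) k, A * A' = 1 → Fixes A (glue c z) →
          ∃ r : k, A = r • (1 : Matrix (Fin n) (Fin n) k)

end Pool.Agent.D0H90.SM
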