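import Pool.Agent.D0H90.SM.Ext

set_option autoImplicit false

namespace Pool.Agent.D0H90.SM

open MvPolynomial Matrix

universe u

section
variable {n d : ℕ} {k : Type u} [Field k]

/-- Inclusion of local rings. -/
noncomputable def incl (c c' : Cf n d → k) (h : ∀ F, InvReg c F → InvReg c' F) :
    locRing c →ₐ[k] locRing c' :=
  Subalgebra.inclusion (fun F hF => h F hF)

theorem finrank_eq (c c' : Cf n d → k) (h : ∀ F, InvReg c F → InvReg c' F)
    (h' : ∀ F, InvReg c' F → InvReg c F) (g : ∀ F, InvVan c F → InvVan c' F)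
    (g' : ∀ F, InvVan c' F → InvVan c F) :
    Module.finrank k (maxId c).Cotangent = Module.finrank k (maxId c').Cotangent := by
  let φ := Ideal.mapCotangent (maxId c) (maxId c') (incl c c' h) (fun F hF => g _ hF)
  let ψ := Ideal.mapCotangent (maxId c') (maxId c) (incl c' c h') (fun F hF => g' _ hF)
  refine LinearEquiv.finrank_eq (LinearEquiv.ofLinearMap φ ψ ?_ ?_)
  · ext x
    obtain ⟨x, rfl⟩ := (maxId c').toCotangent_surjective x
    rfl
  · ext x
    obtain ⟨x, rfl⟩ := (maxId c).toCotangent_surjective x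
    rfl

/-- The dimension of the cotangent space `𝔪/𝔪²` of the moduli space at the class of `c`. -/
noncomputable def cotDim (c : Cf n d → k) : ℕ := Module.finrank k (maxId c).Cotangent

theorem cotDim_eq (c c' : Cf n d → k) (h : ∀ F, InvReg c F → InvReg c' F)
    (h' : ∀ F, InvReg c' F → InvReg c F) (g : ∀ F, InvVan c F → InvVan c' F)
    (g' : ∀ F, InvVan c' F → InvVan c F) : cotDim c = cotDim c' :=
  finrank_eq c c' h h' g g'

theorem exists_gens' (c : Cf n d → k) (hpos : 0 < Fintype.card (Rest n d))
    (h : cotDim c = Fintype.card (Rest n d)) :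
    ∃ u : Rest n d → Rat n d k, (∀ ρ, InvVan c (u ρ)) ∧ Gens c u :=
  exists_gens c hpos h

end

end Pool.Agent.D0H90.SM
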