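import Pool.Agent.D0H90.SM.Stm4
import Pool.Agent.D0H90.SM.Tra

set_option autoImplicit false

/-!
# Project SM (MP_807a54_ag): fifth batch, regularity in the sense of Mathlib

All of `S_BASE` … `S_CONV`, `S_CARD` are proved (`Pool.Agent.D0H90.SM.All`: `aBASE`, `aTHETA`, `aTAU`, …, which may
be imported and used directly). Aim: `IsRegularLocalRing (locRing f) ↔ ¬ HasAut f`.
-/

namespace Pool.Agent.D0H90.SM

open MvPolynomial Matrix

universe u

/-- UPB. A subalgebra of the field of rational functions in `#ι` variables has Krull dimension `≤ #ι`.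

Proof. For a domain `A` over `k` with a nonzero prime `P`: `trdeg A ≥ trdeg (A/P) + 1` if `trdeg A` is finite: let
`t_1, …, t_s ∈ A` lift algebraically independent elements of `A/P`, `0 ≠ x ∈ P`; then `t_1, …, t_s, x` are
algebraically independent (a relation `F(t, x) = 0` of minimal degree in `x`: modulo `P`, `F(t̄, 0) = 0`, so
`F(T, 0) = 0`, `F = X F'`, and `F'(t, x) = 0` as `A` is a domain). So a chain `P_0 ⊊ … ⊊ P_r` of primes gives
`trdeg A ≥ r` by induction, and `trdeg A ≤ #ι`. -/
def S_UPB : Prop :=
  ∀ (k : Type u) [Field k] (ι : Type) [Fintype ι]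
    (A : Subalgebra k (FractionRing (MvPolynomial ι k))), ringKrullDim A ≤ Fintype.card ι

/-- RES (uses BASE, INVK, THETA). Restriction to the slice is an injective homomorphism from
`locRing c` to the rational functions on the slice, if `c` is transversal.

Proof. `F = P/Q ↦ res P / res Q` (`res c Q ≠ 0` as `Q(c) ≠ 0`); well defined, since `F` determines
`P/Q`. Injective: let `res c P = 0`, i.e. `P(y) = 0` for the generic point `y` of the slice. INVK (`b = 0`) over `LL`,
with `f = conj 𝓔⁻¹ 𝓔 y`: `P(y) Q(f) = P(f) Q(y)`, `Q(y) ≠ 0`, so `θ(P) = P(f) = 0` and `P = 0` (THETA). -/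
def S_RES : Prop :=
  ∀ (k : Type u) [Field k] [IsAlgClosed k] [CharZero k] (n d : ℕ), 2 ≤ d →
    ∀ c : Cf n d → k, Transv c →
      ∃ φ : locRing c →ₐ[k] FractionRing (MvPolynomial (Rest n d) k), Function.Injective φ ∧
        ∀ (F : locRing c) (P Q : Pol n d k), Invt P Q → eval c Q ≠ 0 →
          F.1 * algebraMap _ (Rat n d k) Q = algebraMap _ (Rat n d k) P →
          φ F * algebraMap _ _ (res c Q) = algebraMap _ _ (res c P)

/-- RAD (uses the same lemmas as PSI and TAU, with `w = rest c`; TT). The coordinate functions `X_ρ - c_ρ` of the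
slice are nilpotent modulo the functions in `maxId c`: some power times a polynomial `S` with `S(c) ≠ 0` is a
combination of the restrictions of invariant functions vanishing at `c`.

Proof. Let `T` be as in TT, `R ∈ k[Rest]` arbitrary, `bM > deg R`, `ψ_R = R(y) det(𝓔)^(bM) / T(f)^M`. As in PSI
(no condition on `R` is needed for this part) `ψ_R` is a root of a monic polynomial `q` with coefficients
`θ(P_i)/θ(Q_i)`, `Invt P_i Q_i`, `Q_i(c) ≠ 0`. Restrict to `𝓔 = 1` (the relation holds in `PP` localised at
`det 𝓔` and the denominators; put `𝓔 = 1`): `q(R/T^M) = 0` on the slice, with the coefficients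
`res P_i / res Q_i`. Modulo the ideal `J` generated in `O = k[Rest]_(rest c)` by the restrictions of `maxId c`, the
coefficients are the constants `P_i(c)/Q_i(c)`: `q̄(R/T^M) = 0` in `O/J` with `q̄ ∈ k[X]`. Write
`q̄ = (X - r)^e q₁`, `r = R(c)/T(c)^M`, `q₁(r) ≠ 0`; `q₁(R/T^M)` is a unit of `O/J`. So
`(R/T^M - r)^e ∈ J`. Apply this to `R = 1` and `R = X_ρ` with the same `M`:
`(X_ρ - c_ρ) T^(-M) = (X_ρ T^(-M) - c_ρ T(c)^(-M)) - c_ρ (T^(-M) - T(c)^(-M))` is nilpotent in `O/J`. -/
def S_RAD : Prop :=
  ∀ (k : Type u) [Field k] [IsAlgClosed k] [CharZero k] (n d : ℕ), 2 ≤ n → 2 ≤ d →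
    ∀ c : Cf n d → k, Nondeg c → Transv c → ∀ ρ : Rest n d,
      ∃ (e t : ℕ) (S : MvPolynomial (Rest n d) k) (P Q : Fin t → Pol n d k)
        (R : Fin t → MvPolynomial (Rest n d) k), eval (rest c) S ≠ 0 ∧
        (∀ j, Invt (P j) (Q j) ∧ eval c (Q j) ≠ 0 ∧ eval c (P j) = 0) ∧
        S * (X ρ - C (rest c ρ)) ^ e = ∑ j, R j * res c (P j)

/-- LOW (uses RES, RAD, CARD). If `locRing c` is Noetherian, its dimension is `≥ #Rest`.

Proof. Let `A = locRing c`, `O = k[Rest]_(rest c)`, `A → O` the restriction (RES; a local homomorphism with values in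
`O`). Some ideal `q` of `A` generated by `dim A` elements has `maxId c` as its radical (Krull height theorem: Mathlib
has `Ideal.exists_…height…` for Noetherian rings). By RAD `q O` contains powers of all `X_ρ - c_ρ`, so the maximal
ideal of `O` is minimal over `q O` and has height `≤ dim A` (Krull). Its height is `dim O = #Rest`
(`MvPolynomial` over a field has dimension `#Rest`, every maximal ideal of it has this height: for the
ideal of a rational point use the chain `(X_1 - c_1, …, X_i - c_i)`). -/
def S_LOW : Prop :=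
  ∀ (k : Type u) [Field k] [IsAlgClosed k] [CharZero k] (n d : ℕ), 2 ≤ n → 2 ≤ d →
    ∀ c : Cf n d → k, Nondeg c → Transv c → IsNoetherianRing (locRing c) →
      (Fintype.card (Rest n d) : WithBot ℕ∞) ≤ ringKrullDim (locRing c)

/-- NOE (uses TAU, RES). If `c` has only scalar automorphisms, `locRing c` is Noetherian.

Proof. `A = locRing c → O = k[Rest]_(rest c)`. Let `I` be an ideal of `A`. `I O` is generated by finitely many
elements `i_1, …, i_t` of (the image of) `I`. Let `h ∈ I`: `h = Σ i_j φ_j` in `O`, i.e. `S h = Σ i_j R_j` on the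
slice with `S, R_j ∈ k[Rest]`, `S(c) ≠ 0` (common denominator `Q` for `h` and the `i_j`: the pairs
`(P_j, Q)` stay invariant). TAU with `D ≥` the degrees of `S, R_j`: `h τ(S) = Σ i_j τ(R_j)`, and `τ(S)` is a unit of
`A` (`mem_maxId_iff`). So `h ∈ (i_1, …, i_t)`. -/
def S_NOE : Prop :=
  ∀ (k : Type u) [Field k] [IsAlgClosed k] [CharZero k] (n d : ℕ), 2 ≤ n → 2 ≤ d →
    ∀ c : Cf n d → k, Nondeg c → Transv c →
      (∀ A A' : Matrix (Fin n) (Fin n) k, A * A' = 1 → Fixes A c →
        ∃ r : k, A = r • (1 : Matrix (Fin n) (Fin n) k)) →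
      IsNoetherianRing (locRing c)

/-- COT. The dimension of the cotangent space over the residue field is `cotDim c`.

Proof. `maxId c = maximalIdeal` (`maxId_eq`), and the residue field of `locRing c` is `k` (evaluation at `c`:
`P/Q ↦ P(c)/Q(c)`; every element of `locRing c` is a constant plus an element of `maxId c`). -/
def S_COT : Prop :=
  ∀ (k : Type u) [Field k] (n d : ℕ) (c : Cf n d → k),
    Module.finrank (IsLocalRing.ResidueField (locRing c)) (IsLocalRing.CotangentSpace (locRing c)) =
      cotDim c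

end Pool.Agent.D0H90.SM
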