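import Pool.Agent.D0H90.SM.Chk
import Pool.Agent.D0H84.SM.Psi

set_option autoImplicit false

namespace Pool.Agent.D0H90.SM

universe u

theorem aBASE : S_BASE.{u} := Pool.Agent.D0H81.SM.t_BASE
theorem aCODIM : S_CODIM.{u} := Pool.Agent.D0H98.SM.t_CODIM aBASE Pool.Agent.D0H35.SM.t_COMB
  Pool.Agent.D0H81.SM.t_INJ Pool.Agent.D0H50.SM.t_ORD
theorem aNDG : S_NDG.{u} := Pool.Agent.D0H35.SM.t_NDG
theorem aINT : S_INT.{u} := Pool.Agent.D0H21.SM.t_INT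
theorem aDOM : S_DOM.{u} := Pool.Agent.D0H21.SM.t_DOM aBASE aNDG aINT
theorem aINVK : S_INVK.{u} := Pool.Agent.D0H52.SM.t_INVK aBASE
theorem aORB : S_ORB.{u} := Pool.Agent.D0H52.SM.t_ORB aBASE aINVK
theorem aGRAD : S_GRAD.{u} := Pool.Agent.D0H10.SM.t_GRAD
theorem aJ0 : S_J0.{u} := Pool.Agent.D0H70.SM.t_J0 aBASE aCODIM aINVK
theorem aGEN : S_GEN.{u} := Pool.Agent.D0H70.SM.t_GEN aBASE aCODIM aNDG
theorem aSTAB : S_STAB.{u} := Pool.Agent.D0H65.SM.t_STAB aNDG aGEN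
theorem aTHETA : S_THETA.{u} := Pool.Agent.D0H17.SM.t_THETA aBASE
theorem aEXTB : S_EXTB.{u} := Pool.Agent.D0H3.SM.t_EXTB aBASE
theorem aFINS : S_FINS.{u} := Pool.Agent.D0H18.SM.t_FINS aINT
theorem aSOLI : S_SOLI.{u} := Pool.Agent.D0H3.SM.t_SOLI aINT aNDG aTHETA
theorem aDESC : S_DESC.{u} := Pool.Agent.D0H16.SM.t_DESC aBASE aTHETA aEXTB
theorem aPLACE : S_PLACE.{u} := Pool.Agent.D0H18.SM.t_PLACE
theorem aOVP : S_OVP.{u} := Pool.Agent.D0H17.SM.t_OVP aBASE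
theorem aUNIQ : S_UNIQ.{u} := Pool.Agent.D0H98.SM.Uniq.t_UNIQ aBASE aOVP
theorem aTT : S_TT.{u} := Pool.Agent.D0H16.SM.t_TT aBASE aSOLI aFINS aDESC aPLACE aOVP
theorem aPSI : S_PSI.{u} := Pool.Agent.D0H84.SM.t_PSI aBASE aSOLI aFINS aNDG aDESC aPLACE aOVP aUNIQ
theorem aFAM : S_FAM.{u} := Pool.Agent.D0H97.SM.t_FAM aPSI
theorem aGENR : S_GENR.{u} := Pool.Agent.D0H58.SM.t_GENR aBASE aTHETA
theorem aTAU : S_TAU.{u} := Pool.Agent.D0H3.SM.t_TAU aBASE aINVK aSOLI aFINS aNDG aTHETA aDESC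
  aPLACE aOVP aTT aGENR
theorem aNAK : S_NAK.{u} := Pool.Agent.D0H10.SM.Nak.t_NAK
theorem aCONV : S_CONV.{u} := Pool.Agent.D0H58.SM.t_CONV aTT aFAM aTAU aNAK
theorem aCARD : S_CARD := Pool.Agent.D0H10.SM.Card.t_CARD

theorem main_all (k : Type u) [Field k] [IsAlgClosed k] [CharZero k] (N d : ℕ)
    (hN : 2 ≤ N) (hd : 2 ≤ d) (f : Cf (N + 1) d → k) (hf : Nondeg f) :
    cotDim f ≠ (N + 1) * (N + d).choose d - (N + 1) ^ 2 ↔ HasAut f :=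
  main aBASE aDOM aORB aJ0 aTT aGRAD aSTAB aFAM aCONV aCARD k N d hN hd f hf

end Pool.Agent.D0H90.SM
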