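import Pool.Agent.D0H90.SM.Fin
import Pool.Agent.D0H81.SM.Base
import Pool.Agent.D0H81.SM.Inj
import Pool.Agent.D0H35.SM.Comb
import Pool.Agent.D0H35.SM.Ndg
import Pool.Agent.D0H50.SM.Ord
import Pool.Agent.D0H98.SM.Codim
import Pool.Agent.D0H21.SM.Int
import Pool.Agent.D0H21.SM.Dom
import Pool.Agent.D0H52.SM.Invk
import Pool.Agent.D0H52.SM.Orb
import Pool.Agent.D0H10.SM.Grad
import Pool.Agent.D0H10.SM.Nak
import Pool.Agent.D0H10.SM.Card
import Pool.Agent.D0H70.SM.J0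
import Pool.Agent.D0H70.SM.Gen
import Pool.Agent.D0H65.SM.Stab
import Pool.Agent.D0H17.SM.Theta
import Pool.Agent.D0H17.SM.Ovp
import Pool.Agent.D0H18.SM.Fins
import Pool.Agent.D0H18.SM.Place
import Pool.Agent.D0H3.SM.Extb
import Pool.Agent.D0H3.SM.Soli
import Pool.Agent.D0H3.SM.Tau
import Pool.Agent.D0H16.SM.Desc
import Pool.Agent.D0H16.SM.Tt
import Pool.Agent.D0H98.SM.Uniq
import Pool.Agent.D0H58.SM.Genr
import Pool.Agent.D0H58.SM.Conv
import Pool.Agent.D0H97.SM.Fam
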