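import Pool.Agent.D0H90.SM.All
import Pool.Agent.D0H90.SM.Stm5
import Pool.Agent.D0H62.SM.Upb
import Pool.Agent.D0H62.SM.Cot
import Pool.Agent.D0H18.SM.Res
import Pool.Agent.D0H81.SM.Rad
import Pool.Agent.D0H35.SM.Low
import Pool.Agent.D0H49.SM.Noe
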