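import Mathlib

set_option autoImplicit false

/-!
# Tuples of forms, conjugation, invariant rational functions (MP_807a54_ag)

`n` variables (`n = N + 1`), degree `d`. A tuple of `n` forms of degree `d` in `n` variables over `R`
is given by its coefficients `c : Cf n d → R`.
-/

namespace Pool.Agent.D0H90.SM

open MvPolynomial Matrix

/-- Exponent vectors of degree `d` in `n` variables. -/
def Ex (n d : ℕ) : Type := {m : Fin n → Fin (d + 1) // ∑ l, (m l : ℕ) = d}

instance (n d : ℕ) : Fintype (Ex n d) := by unfold Ex; infer_instance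
instance (n d : ℕ) : DecidableEq (Ex n d) := by unfold Ex; infer_instance

/-- Indices of the coefficients of a tuple of `n` forms of degree `d` in `n` variables. -/
abbrev Cf (n d : ℕ) : Type := Fin n × Ex n d

/-- The monomial `x^m`. -/
def mon {n d : ℕ} {R : Type*} [CommRing R] (m : Ex n d) (x : Fin n → R) : R :=
  ∏ l, x l ^ (m.1 l : ℕ)

/-- The value `f(x)` of the tuple of forms `f` with coefficients `c`. -/
def ev {n d : ℕ} {R : Type*} [CommRing R] (c : Cf n d → R) (x : Fin n → R) : Fin n → R :=
  fun i => ∑ m, c (i, m) * mon m x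

/-- The derivative of the monomial `x^m` in the direction `y`. -/
def dmon {n d : ℕ} {R : Type*} [CommRing R] (m : Ex n d) (x y : Fin n → R) : R :=
  ∑ l, ((m.1 l : ℕ) : R) * y l * ∏ s, x s ^ (if s = l then (m.1 s : ℕ) - 1 else (m.1 s : ℕ))

/-- The derivative `Df(x) y` of the tuple `f` with coefficients `c`. -/
def dev {n d : ℕ} {R : Type*} [CommRing R] (c : Cf n d → R) (x y : Fin n → R) : Fin n → R :=
  fun i => ∑ m, c (i, m) * dmon m x y

/-- No common zero other than the origin. -/
def Nondeg {n d : ℕ} {K : Type*} [Field K] (c : Cf n d → K) : Prop :=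
  ∀ x : Fin n → K, ev c x = 0 → x = 0

/-- `f(Ax) = A f(x)`. -/
def Fixes {n d : ℕ} {K : Type*} [Field K] (A : Matrix (Fin n) (Fin n) K) (c : Cf n d → K) : Prop :=
  ∀ x : Fin n → K, ev c (A *ᵥ x) = A *ᵥ ev c x

/-- The exponent vector as a finitely supported function. -/
noncomputable def toF {n d : ℕ} (m : Ex n d) : Fin n →₀ ℕ := Finsupp.equivFunOnFinite.symm fun l => (m.1 l : ℕ)

/-- The coefficients of the tuple of forms `A' f(A x)`. For `A' = A⁻¹` this is the conjugate
`f^A = A⁻¹ ∘ f ∘ A`. -/
noncomputable def conj {n d : ℕ} {R : Type*} [CommRing R] (A A' : Matrix (Fin n) (Fin n) R)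
    (c : Cf n d → R) : Cf n d → R :=
  fun a => ∑ j, A' a.1 j *
    coeff (toF a.2) (ev (fun b => (C (c b) : MvPolynomial (Fin n) R))
      (fun l => ∑ s, C (A l s) * X s) j)

/-- The ring `k[V]` of polynomial functions on the space `V` of tuples of forms. -/
abbrev Pol (n d : ℕ) (k : Type*) [Field k] : Type _ := MvPolynomial (Cf n d) k

/-- The field `k(V)` of rational functions on `V`. -/
abbrev Rat (n d : ℕ) (k : Type*) [Field k] : Type _ := FractionRing (Pol n d k)

/-- The rational function `P / Q` is invariant under conjugation by `GL_n`. -/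
def Invt {n d : ℕ} {k : Type*} [Field k] (P Q : Pol n d k) : Prop :=
  ∀ A A' : Matrix (Fin n) (Fin n) k, A * A' = 1 → ∀ c : Cf n d → k,
    eval c P * eval (conj A A' c) Q = eval (conj A A' c) P * eval c Q

/-- `F` is an invariant rational function which is regular at the point `c`. -/
def InvReg {n d : ℕ} {k : Type*} [Field k] (c : Cf n d → k) (F : Rat n d k) : Prop :=
  ∃ P Q : Pol n d k, Invt P Q ∧ eval c Q ≠ 0 ∧
    F * algebraMap (Pol n d k) (Rat n d k) Q = algebraMap (Pol n d k) (Rat n d k) P

/-- `F` is an invariant rational function which is regular at the point `c` and vanishes at `c`. -/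
def InvVan {n d : ℕ} {k : Type*} [Field k] (c : Cf n d → k) (F : Rat n d k) : Prop :=
  ∃ P Q : Pol n d k, Invt P Q ∧ eval c Q ≠ 0 ∧ eval c P = 0 ∧
    F * algebraMap (Pol n d k) (Rat n d k) Q = algebraMap (Pol n d k) (Rat n d k) P

end Pool.Agent.D0H90.SM
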