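import Pool.Agent.D0H90.SM.Stm

set_option autoImplicit false

/-!
# The local ring of the moduli space; slices; the generic point (MP_807a54_ag)
-/

namespace Pool.Agent.D0H90.SM

open MvPolynomial Matrix

/-- The coefficients at monomials which are not `d`-th powers of a variable. -/
abbrev Rest (n d : ℕ) : Type := {a : Cf n d // ¬ ∃ i, (a.2.1 i : ℕ) = d}

/-- The point of the affine slice through `c`: the coefficients at the `d`-th powers are those of `c`,
the other ones are given by `z`. -/
noncomputable def glue {n d : ℕ} {R : Type*} (c : Cf n d → R) (z : Rest n d → R) : Cf n d → R :=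
  open Classical in fun a => if h : ∃ i, (a.2.1 i : ℕ) = d then c a else z ⟨a, h⟩

/-- The other coordinates of `c`. -/
def rest {n d : ℕ} {R : Type*} (c : Cf n d → R) : Rest n d → R := fun a => c a.1

/-- Restriction of polynomial functions to the slice through `c`. -/
noncomputable def res {n d : ℕ} {k : Type*} [Field k] (c : Cf n d → k) :
    Pol n d k →ₐ[k] MvPolynomial (Rest n d) k :=
  aeval (glue (fun a => C (c a)) X)

/-- `Q² ∂(P/Q)/∂c_ρ`. -/
noncomputable def grad {n d : ℕ} {k : Type*} [Field k] (P Q : Pol n d k) (ρ : Rest n d) :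
    Pol n d k :=
  Q * pderiv ρ.1 P - P * pderiv ρ.1 Q

/-- The Jacobian determinant (without denominators) of the functions `P_i / Q_i` in the directions
of the slice. -/
noncomputable def Jac {n d : ℕ} {k : Type*} [Field k] (P Q : Rest n d → Pol n d k) : Pol n d k :=
  open Classical in Matrix.det (Matrix.of fun i ρ => grad (P i) (Q i) ρ)

/-- Products of two functions vanishing at `c`, and their linear combinations. -/
noncomputable def Sq {n d : ℕ} {k : Type*} [Field k] (c : Cf n d → k) : Submodule k (Rat n d k) :=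
  Submodule.span k {F | ∃ g h : Rat n d k, InvVan c g ∧ InvVan c h ∧ F = g * h}

/-- The functions `u` generate the functions vanishing at `c` modulo products. -/
def Gens {n d : ℕ} {k : Type*} [Field k] (c : Cf n d → k) (u : Rest n d → Rat n d k) : Prop :=
  ∀ h, InvVan c h → ∃ a : Rest n d → k, h - ∑ ρ, a ρ • u ρ ∈ Sq c

/-- `P/Q` is semi-invariant: `(P/Q)(f) = det(A)^b (P/Q)(f^A)`. -/
def Semi {n d : ℕ} {k : Type*} [Field k] (b : ℕ) (P Q : Pol n d k) : Prop :=
  ∀ A A' : Matrix (Fin n) (Fin n) k, A * A' = 1 → ∀ c : Cf n d → k,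
    eval c P * eval (conj A A' c) Q = A.det ^ b * (eval (conj A A' c) P * eval c Q)

/-- Polynomials in the entries of a matrix `𝓔` and the coordinates of the slice. -/
abbrev PP (n d : ℕ) (k : Type*) [Field k] : Type _ :=
  MvPolynomial ((Fin n × Fin n) ⊕ Rest n d) k

/-- The fraction field of `PP`. -/
abbrev LL (n d : ℕ) (k : Type*) [Field k] : Type _ := FractionRing (PP n d k)

/-- An algebraic closure of `LL`. -/
abbrev OM (n d : ℕ) (k : Type*) [Field k] : Type _ := AlgebraicClosure (LL n d k)

/-- The generic matrix `𝓔`. -/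
noncomputable def genE (n d : ℕ) (k : Type*) [Field k] : Matrix (Fin n) (Fin n) (LL n d k) :=
  Matrix.of fun i j => algebraMap (PP n d k) (LL n d k) (X (Sum.inl (i, j)))

/-- The generic point `y` of the slice through `c`. -/
noncomputable def geny {n d : ℕ} {k : Type*} [Field k] (c : Cf n d → k) : Cf n d → LL n d k :=
  fun a => algebraMap (PP n d k) (LL n d k)
    (glue (fun a => (C (c a) : PP n d k)) (fun ρ => X (Sum.inr ρ)) a)

/-- The tuple `f = 𝓔 ∘ y ∘ 𝓔⁻¹`, the generic point of `V` (coordinates in `LL`). -/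
noncomputable def genfL {n d : ℕ} {k : Type*} [Field k] (c : Cf n d → k) : Cf n d → LL n d k :=
  conj (genE n d k)⁻¹ (genE n d k) (geny c)

/-- The homomorphism `θ : k[V] → LL`, `P ↦ P(f)`. -/
noncomputable def theta {n d : ℕ} {k : Type*} [Field k] (c : Cf n d → k) :
    Pol n d k →ₐ[k] LL n d k :=
  aeval (genfL c)

/-- `θ` with values in `OM`. -/
noncomputable def thetaO {n d : ℕ} {k : Type*} [Field k] (c : Cf n d → k) (P : Pol n d k) :
    OM n d k :=
  algebraMap (LL n d k) (OM n d k) (theta c P)

/-- The coordinates of `f` in `OM`. -/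
noncomputable def genf {n d : ℕ} {k : Type*} [Field k] (c : Cf n d → k) : Cf n d → OM n d k :=
  fun a => algebraMap (LL n d k) (OM n d k) (genfL c a)

/-- The matrices `E` over `OM` with `f(E e_i) = E c(e_i)` for all `i`: those for which `E⁻¹ ∘ f ∘ E` lies
in the slice through `c`, if `E` is invertible. -/
def Sol {n d : ℕ} {k : Type*} [Field k] (c : Cf n d → k)
    (E : Matrix (Fin n) (Fin n) (OM n d k)) : Prop :=
  ∀ i, ev (genf c) (fun l => E l i) = E *ᵥ fun j => algebraMap k (OM n d k) (ev c (bas i) j)

/-- Automorphisms of `OM` over `k` which map `f` to `f^A`. -/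
def SymA {n d : ℕ} {k : Type*} [Field k] (c : Cf n d → k) (A A' : Matrix (Fin n) (Fin n) k)
    (σ : OM n d k ≃+* OM n d k) : Prop :=
  (∀ t : k, σ (algebraMap k _ t) = algebraMap k _ t) ∧
  ∀ a, σ (genf c a) = conj (A.map (algebraMap k (OM n d k))) (A'.map (algebraMap k (OM n d k)))
    (genf c) a

/-- The image under `θ` of the local ring of `V` at `v`, as a subring of `OM`. -/
noncomputable def Ov {n d : ℕ} {k : Type*} [Field k] (c v : Cf n d → k) : Subring (OM n d k) :=
  Subring.closure ({x | ∃ P, x = thetaO c P} ∪ {x | ∃ Q, eval v Q ≠ 0 ∧ x = (thetaO c Q)⁻¹})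

/-- Evaluation of `PP` at `𝓔 = 1`, `y = w`. -/
noncomputable def evalOne {n d : ℕ} {k : Type*} [Field k] (w : Rest n d → k) : PP n d k →+* k :=
  eval (Sum.elim (fun p => if p.1 = p.2 then 1 else 0) w)

/-- An integrally closed subring of `OM` containing the local ring of `PP` at `(1, w)`, with a
homomorphism to `k` which extends the evaluation. -/
structure Place {n d : ℕ} {k : Type*} [Field k] (w : Rest n d → k) where
  /-- the subring -/
  ring : Subring (OM n d k)
  /-- the homomorphism -/
  hom : ring →+* k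
  mem : ∀ P : PP n d k, algebraMap (LL n d k) (OM n d k) (algebraMap _ _ P) ∈ ring
  eq : ∀ P : PP n d k, hom ⟨_, mem P⟩ = evalOne w P
  inv : ∀ P : PP n d k, evalOne w P ≠ 0 →
    (algebraMap (LL n d k) (OM n d k) (algebraMap _ _ P))⁻¹ ∈ ring
  closed : ∀ x : OM n d k, IsIntegral ring x → x ∈ ring

end Pool.Agent.D0H90.SM
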