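import Pool.Agent.D0H90.SM.Defs

set_option autoImplicit false

/-!
# The local ring of the moduli space `M_d^N` at the class of a map (MP_807a54_ag)
-/

namespace Pool.Agent.D0H90.SM

open MvPolynomial Matrix

section
variable {n d : ℕ} {k : Type*} [Field k]

theorem Invt.one (r : k) : Invt (C r : Pol n d k) 1 := by
  intro A A' _ c; simp

theorem Invt.add {P Q P' Q' : Pol n d k} (h : Invt P Q) (h' : Invt P' Q') :
    Invt (P * Q' + P' * Q) (Q * Q') := by
  intro A A' hA c
  have h1 := h A A' hA c
  have h2 := h' A A' hA c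
  simp only [map_add, map_mul]
  linear_combination (eval c Q' * eval (conj A A' c) Q') * h1 +
    (eval c Q * eval (conj A A' c) Q) * h2

theorem Invt.mul {P Q P' Q' : Pol n d k} (h : Invt P Q) (h' : Invt P' Q') :
    Invt (P * P') (Q * Q') := by
  intro A A' hA c
  have h1 := h A A' hA c
  have h2 := h' A A' hA c
  simp only [map_mul]
  linear_combination (eval c P' * eval (conj A A' c) Q') * h1 +
    (eval (conj A A' c) P * eval c Q) * h2

theorem InvReg.add {c : Cf n d → k} {F G : Rat n d k} (hF : InvReg c F) (hG : InvReg c G) :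
    InvReg c (F + G) := by
  obtain ⟨P, Q, h1, h2, h3⟩ := hF
  obtain ⟨P', Q', h1', h2', h3'⟩ := hG
  refine ⟨P * Q' + P' * Q, Q * Q', h1.add h1', by simp [h2, h2'], ?_⟩
  simp only [map_add, map_mul]
  linear_combination (algebraMap (Pol n d k) (Rat n d k) Q') * h3 +
    (algebraMap (Pol n d k) (Rat n d k) Q) * h3'

theorem InvReg.mul {c : Cf n d → k} {F G : Rat n d k} (hF : InvReg c F) (hG : InvReg c G) :
    InvReg c (F * G) := by
  obtain ⟨P, Q, h1, h2, h3⟩ := hF
  obtain ⟨P', Q', h1', h2', h3'⟩ := hG
  refine ⟨P * P', Q * Q', h1.mul h1', by simp [h2, h2'], ?_⟩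
  simp only [map_mul]
  linear_combination (G * algebraMap (Pol n d k) (Rat n d k) Q') * h3 +
    (algebraMap (Pol n d k) (Rat n d k) P) * h3'

theorem InvReg.const (c : Cf n d → k) (r : k) : InvReg c (algebraMap k (Rat n d k) r) := by
  refine ⟨C r, 1, Invt.one r, by simp, ?_⟩
  rw [map_one, mul_one, IsScalarTower.algebraMap_apply k (Pol n d k) (Rat n d k)]
  rfl

theorem InvVan.reg {c : Cf n d → k} {F : Rat n d k} (hF : InvVan c F) : InvReg c F := by
  obtain ⟨P, Q, h1, h2, _, h3⟩ := hF
  exact ⟨P, Q, h1, h2, h3⟩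

theorem InvVan.add {c : Cf n d → k} {F G : Rat n d k} (hF : InvVan c F) (hG : InvVan c G) :
    InvVan c (F + G) := by
  obtain ⟨P, Q, h1, h2, h0, h3⟩ := hF
  obtain ⟨P', Q', h1', h2', h0', h3'⟩ := hG
  refine ⟨P * Q' + P' * Q, Q * Q', h1.add h1', by simp [h2, h2'], by simp [h0, h0'], ?_⟩
  simp only [map_add, map_mul]
  linear_combination (algebraMap (Pol n d k) (Rat n d k) Q') * h3 +
    (algebraMap (Pol n d k) (Rat n d k) Q) * h3'

theorem InvVan.mul_left {c : Cf n d → k} {F G : Rat n d k} (hF : InvReg c F) (hG : InvVan c G) :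
    InvVan c (F * G) := by
  obtain ⟨P, Q, h1, h2, h3⟩ := hF
  obtain ⟨P', Q', h1', h2', h0', h3'⟩ := hG
  refine ⟨P * P', Q * Q', h1.mul h1', by simp [h2, h2'], by simp [h0'], ?_⟩
  simp only [map_mul]
  linear_combination (G * algebraMap (Pol n d k) (Rat n d k) Q') * h3 +
    (algebraMap (Pol n d k) (Rat n d k) P) * h3'

theorem InvVan.zero (c : Cf n d → k) : InvVan c (0 : Rat n d k) := by
  refine ⟨C 0, 1, Invt.one 0, by simp, by simp, by simp⟩

/-- The local ring of the moduli space at the class of `c`: the invariant rational functions on the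
space of tuples of forms which are regular at `c`. -/
noncomputable def locRing (c : Cf n d → k) : Subalgebra k (Rat n d k) where
  carrier := {F | InvReg c F}
  mul_mem' h h' := h.mul h'
  add_mem' h h' := h.add h'
  algebraMap_mem' r := InvReg.const c r

/-- The ideal of the functions which vanish at the class of `c`. -/
noncomputable def maxId (c : Cf n d → k) : Ideal (locRing c) where
  carrier := {F | InvVan c F.1}
  add_mem' h h' := h.add h'
  zero_mem' := InvVan.zero c
  smul_mem' F _ hG := InvVan.mul_left F.2 hG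

theorem mem_maxId (c : Cf n d → k) (F : locRing c) : F ∈ maxId c ↔ InvVan c F.1 := Iff.rfl

/-- `maxId c` is the unique maximal ideal of `locRing c`: its elements are the non-units. -/
theorem mem_maxId_iff (c : Cf n d → k) (F : locRing c) : F ∈ maxId c ↔ ¬ IsUnit F := by
  classical
  have hinj : Function.Injective (algebraMap (Pol n d k) (Rat n d k)) :=
    IsFractionRing.injective _ _
  constructor
  · rintro ⟨P, Q, h1, h2, h0, h3⟩ ⟨⟨F, G, h, _⟩, rfl⟩
    obtain ⟨P', Q', h1', h2', h3'⟩ := G.2
    have h : (F.1 * G.1 : Rat n d k) = 1 := congrArg Subtype.val h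
    have : algebraMap (Pol n d k) (Rat n d k) (Q * Q') =
        algebraMap (Pol n d k) (Rat n d k) (P * P') := by
      simp only [map_mul]
      rw [← h3, ← h3']
      linear_combination (-(algebraMap (Pol n d k) (Rat n d k) Q *
        algebraMap (Pol n d k) (Rat n d k) Q')) * h
    have := congrArg (eval c) (hinj this)
    simp [h0] at this
    tauto
  · intro h
    obtain ⟨P, Q, h1, h2, h3⟩ := F.2
    refine ⟨P, Q, h1, h2, ?_, h3⟩
    by_contra hP
    apply h
    have hP0 : algebraMap (Pol n d k) (Rat n d k) P ≠ 0 := by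
      intro h0
      rw [← map_zero (algebraMap (Pol n d k) (Rat n d k))] at h0
      rw [hinj h0] at hP; simp at hP
    have hQ0 : algebraMap (Pol n d k) (Rat n d k) Q ≠ 0 := by
      intro h0
      rw [← map_zero (algebraMap (Pol n d k) (Rat n d k))] at h0
      rw [hinj h0] at h2; simp at h2
    have hG : InvReg c (algebraMap (Pol n d k) (Rat n d k) Q /
        algebraMap (Pol n d k) (Rat n d k) P) := by
      refine ⟨Q, P, ?_, hP, div_mul_cancel₀ _ hP0⟩
      intro A A' hA x
      have := h1 A A' hA x
      linear_combination -this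
    refine IsUnit.of_mul_eq_one ⟨_, hG⟩ (Subtype.ext ?_)
    change F.1 * (_ / _) = 1
    field_simp
    exact h3

instance (c : Cf n d → k) : IsLocalRing (locRing c) := by
  have : Nontrivial (locRing c) := inferInstance
  apply IsLocalRing.of_nonunits_add
  intro a b ha hb
  rw [mem_nonunits_iff, ← mem_maxId_iff] at *
  exact (maxId c).add_mem ha hb

theorem maxId_eq (c : Cf n d → k) : maxId c = IsLocalRing.maximalIdeal (locRing c) := by
  ext F
  rw [mem_maxId_iff, IsLocalRing.mem_maximalIdeal, mem_nonunits_iff]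

end

end Pool.Agent.D0H90.SM
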