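import Pool.Agent.D0H90.SM.Defs2
import Pool.Agent.D0H90.SM.Defs3

set_option autoImplicit false

namespace Pool.Agent.D0H90.SM

open MvPolynomial Matrix

universe u

section
variable {n d : ℕ} {k : Type u} [Field k]

theorem sq_of_mem (c : Cf n d → k) (F : locRing c) (h : F ∈ maxId c ^ 2) : F.1 ∈ Sq c := by
  rw [pow_two] at h
  refine Submodule.mul_induction_on h ?_ ?_
  · intro a ha b hb
    exact Submodule.subset_span ⟨a.1, b.1, ha, hb, rfl⟩
  · intro x y hx hy
    exact (Sq c).add_mem hx hy

/-- Extraction of generators from the dimension of the cotangent space. -/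
theorem exists_gens (c : Cf n d → k) (hpos : 0 < Fintype.card (Rest n d))
    (h : Module.finrank k (maxId c).Cotangent = Fintype.card (Rest n d)) :
    ∃ u : Rest n d → Rat n d k, (∀ ρ, InvVan c (u ρ)) ∧ Gens c u := by
  classical
  have hf : Module.Finite k (maxId c).Cotangent := by
    apply Module.finite_of_finrank_pos; omega
  let b := (Module.finBasis k (maxId c).Cotangent).reindex
    ((finCongr h).trans (Fintype.equivFin (Rest n d)).symm)
  have hsur := (maxId c).toCotangent_surjective
  choose v hv using fun ρ => hsur (b ρ)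
  refine ⟨fun ρ => (v ρ).1.1, fun ρ => (v ρ).2, ?_⟩
  intro F hF
  let F' : maxId c := ⟨⟨F, hF.reg⟩, hF⟩
  refine ⟨fun ρ => b.repr ((maxId c).toCotangent F') ρ, ?_⟩
  have h1 : (maxId c).toCotangent F' =
      (maxId c).toCotangent (∑ ρ, (algebraMap k (locRing c)
        (b.repr ((maxId c).toCotangent F') ρ)) • v ρ) := by
    rw [map_sum]
    conv_lhs => rw [← b.sum_repr ((maxId c).toCotangent F')]
    apply Finset.sum_congr rfl
    intro ρ _
    rw [map_smul, hv, algebraMap_smul]
  rw [Ideal.toCotangent_eq] at h1
  have h2 := sq_of_mem c _ h1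
  convert h2 using 1
  simp only [AddSubgroupClass.coe_sub, Submodule.coe_sum, AddSubmonoidClass.coe_finsetSum, F']
  congr 1
  apply Finset.sum_congr rfl
  intro ρ _
  rw [Algebra.smul_def]
  rfl

theorem eval_res (c : Cf n d → k) (z : Rest n d → k) (P : Pol n d k) :
    eval z (res c P) = eval (glue c z) P := by
  unfold res
  have : (eval z).comp (aeval (glue (fun a => (C (c a) : MvPolynomial (Rest n d) k)) X) :
      Pol n d k →ₐ[k] _).toRingHom = eval (glue c z) := by
    apply MvPolynomial.ringHom_ext
    · intro r; simp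
    · intro a
      simp only [AlgHom.toRingHom_eq_coe, RingHom.coe_comp, RingHom.coe_coe, Function.comp_apply,
        aeval_X, eval_X, glue]
      split <;> simp
  exact congrArg (fun φ => φ P) this

theorem glue_rest (c : Cf n d → k) : glue c (rest c) = c := by
  funext a
  simp only [glue, rest]
  split <;> rfl

end

end Pool.Agent.D0H90.SM
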