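import Pool.Agent.D0H90.SM.Stm4
import Pool.Agent.D0H90.SM.Tra

set_option autoImplicit false

namespace Pool.Agent.D0H90.SM

open MvPolynomial Matrix

universe u

/-- The map `f` has a non-trivial automorphism: there is an invertible matrix `A`, not scalar, with
`f(Ax) = r A f(x)` for some scalar `r`. -/
def HasAut {n d : ℕ} {k : Type*} [Field k] (f : Cf n d → k) : Prop :=
  ∃ (A A' : Matrix (Fin n) (Fin n) k) (r : k), A * A' = 1 ∧
    (∀ x : Fin n → k, ev f (A *ᵥ x) = r • (A *ᵥ ev f x)) ∧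
    ¬ ∃ s : k, A = s • (1 : Matrix (Fin n) (Fin n) k)

section
variable {n d : ℕ} {k : Type u} [Field k]

theorem ev_smul (c : Cf n d → k) (t : k) (x : Fin n → k) : ev c (t • x) = t ^ d • ev c x := by
  funext i
  simp only [ev, Pi.smul_apply, smul_eq_mul, Finset.mul_sum]
  apply Finset.sum_congr rfl
  intro m _
  have : mon m (t • x) = t ^ d * mon m x := by
    simp only [mon, Pi.smul_apply, smul_eq_mul, mul_pow, Finset.prod_mul_distrib,
      Finset.prod_pow_eq_pow_sum, m.2]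
  rw [this]; ring

theorem nondeg_conj (hB : S_BASE.{u}) (c : Cf n d → k) (hc : Nondeg c)
    (A A' : Matrix (Fin n) (Fin n) k) (hA : A * A' = 1) : Nondeg (conj A A' c) := by
  have hA' : A' * A = 1 := mul_eq_one_comm.mp hA
  intro x hx
  rw [hB.1] at hx
  have h1 : ev c (A *ᵥ x) = 0 := by
    have := congrArg (fun v => A *ᵥ v) hx
    simpa [Matrix.mulVec_mulVec, hA] using this
  have h2 := hc _ h1
  have := congrArg (fun v => A' *ᵥ v) h2
  simpa [Matrix.mulVec_mulVec, hA'] using this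

/-- normalisation of the automorphism -/
theorem exists_fixes [IsAlgClosed k] (hn : 0 < n) (hd : 2 ≤ d) (f : Cf n d → k) (hf : Nondeg f)
    (h : HasAut f) : ∃ A A' : Matrix (Fin n) (Fin n) k, A * A' = 1 ∧ Fixes A f ∧
      ¬ ∃ s : k, A = s • (1 : Matrix (Fin n) (Fin n) k) := by
  obtain ⟨A, A', r, hA, hr, hs⟩ := h
  have hA' : A' * A = 1 := mul_eq_one_comm.mp hA
  have hr0 : r ≠ 0 := by
    rintro rfl
    have h1 : ∀ x : Fin n → k, x = 0 := by
      intro x
      have h2 : ev f (A *ᵥ x) = 0 := by rw [hr]; simp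
      have := congrArg (fun v => A' *ᵥ v) (hf _ h2)
      simpa [Matrix.mulVec_mulVec, hA'] using this
    have := congrFun (h1 (fun _ => 1)) ⟨0, hn⟩
    simp at this
  obtain ⟨μ, hμ⟩ := IsAlgClosed.exists_pow_nat_eq r⁻¹ (n := d - 1) (by omega)
  have hμ0 : μ ≠ 0 := by
    rintro rfl
    rw [zero_pow (by omega)] at hμ
    exact (inv_ne_zero hr0) hμ.symm
  refine ⟨μ • A, μ⁻¹ • A', ?_, ?_, ?_⟩
  · rw [Matrix.smul_mul, Matrix.mul_smul, smul_smul, mul_inv_cancel₀ hμ0, one_smul, hA]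
  · intro x
    rw [Matrix.smul_mulVec, ev_smul, hr, Matrix.smul_mulVec, smul_smul]
    congr 1
    have : μ ^ d = μ ^ (d - 1) * μ := by rw [← pow_succ]; congr 1; omega
    rw [this, hμ]; field_simp
  · rintro ⟨s, hs'⟩
    apply hs
    refine ⟨μ⁻¹ * s, ?_⟩
    rw [mul_smul, ← hs', smul_smul, inv_mul_cancel₀ hμ0, one_smul]

theorem conj_inv (hB : S_BASE.{u}) [Infinite k] (c : Cf n d → k)
    (A A' : Matrix (Fin n) (Fin n) k) (hA : A * A' = 1) : conj A' A (conj A A' c) = c := by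
  apply hB.2.1
  intro x
  rw [hB.1, hB.1]
  simp [Matrix.mulVec_mulVec, hA]

theorem fixes_conj (hB : S_BASE.{u}) (c : Cf n d → k)
    (B B' : Matrix (Fin n) (Fin n) k) (hBB : B * B' = 1) (A : Matrix (Fin n) (Fin n) k)
    (hA : Fixes A c) : Fixes (B' * A * B) (conj B B' c) := by
  intro x
  rw [hB.1, hB.1]
  have h1 := hA (B *ᵥ x)
  simp only [Matrix.mulVec_mulVec] at *
  have h2 : B * (B' * A * B) = A * B := by
    rw [← mul_assoc, ← mul_assoc, hBB, one_mul]
  rw [h2, h1, Matrix.mulVec_mulVec]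
  congr 1
  have : B' * A * B * B' = B' * A := by rw [mul_assoc, hBB, mul_one]
  rw [this]

theorem scalar_conj (B B' : Matrix (Fin n) (Fin n) k) (hBB : B * B' = 1)
    (A : Matrix (Fin n) (Fin n) k) (s : k)
    (h : B' * A * B = s • (1 : Matrix (Fin n) (Fin n) k)) :
    A = s • (1 : Matrix (Fin n) (Fin n) k) := by
  have h1 : B * (B' * A * B) * B' = A := by
    rw [← mul_assoc, ← mul_assoc, hBB, one_mul, mul_assoc, hBB, mul_one]
  rw [← h1, h, Matrix.mul_smul, Matrix.smul_mul, mul_one, hBB]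

theorem gens_conj (hB : S_BASE.{u}) (hORB : S_ORB.{u}) [Infinite k] (c : Cf n d → k)
    (A A' : Matrix (Fin n) (Fin n) k) (hA : A * A' = 1) (u : Rest n d → Rat n d k)
    (hu : Gens c u) : Gens (conj A A' c) u := by
  have hA' : A' * A = 1 := mul_eq_one_comm.mp hA
  have hback : ∀ F, InvVan (conj A A' c) F → InvVan c F := by
    intro F hF
    have := (hORB k n d (conj A A' c) A' A hA' F).2 hF
    rwa [conj_inv hB c A A' hA] at this
  intro h hh
  obtain ⟨a, ha⟩ := hu h (hback h hh)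
  refine ⟨a, ?_⟩
  have hle : Sq c ≤ Sq (conj A A' c) := by
    apply Submodule.span_mono
    rintro F ⟨g, g', hg, hg', rfl⟩
    exact ⟨g, g', (hORB k n d c A A' hA g).2 hg, (hORB k n d c A A' hA g').2 hg', rfl⟩
  exact hle ha

end

section
variable (hB : S_BASE.{u}) (hDOM : S_DOM.{u}) (hORB : S_ORB.{u}) (hJ0 : S_J0.{u})
  (hTT : S_TT.{u}) (hGRAD : S_GRAD.{u}) (hSTAB : S_STAB.{u}) (hFAM : S_FAM.{u})
  (hCONV : S_CONV.{u})
include hB hDOM hORB hJ0 hTT hGRAD hSTAB hFAM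

theorem sing (k : Type u) [Field k] [IsAlgClosed k] [CharZero k] (n d : ℕ) (hn : 3 ≤ n)
    (hd : 2 ≤ d) (hpos : 0 < Fintype.card (Rest n d)) (f : Cf n d → k) (hf : Nondeg f)
    (h : HasAut f) : cotDim f ≠ Fintype.card (Rest n d) := by
  intro hfin
  obtain ⟨A, A', hA, hfix, hns⟩ := exists_fixes (by omega) hd f hf h
  obtain ⟨B, B', hBB, htr⟩ := hDOM k n d hd f hf
  have hBB' : B' * B = 1 := mul_eq_one_comm.mp hBB
  obtain ⟨u, hu, hgen⟩ := exists_gens' f hpos hfin
  set c := conj B B' f with hc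
  have hcnd : Nondeg c := nondeg_conj hB f hf B B' hBB
  have hgen' : Gens c u := gens_conj hB hORB f B B' hBB u hgen
  have hu' : ∀ ρ, InvVan c (u ρ) := fun ρ => (hORB k n d f B B' hBB (u ρ)).2 (hu ρ)
  choose P Q h1 h2 h3 h4 using hu'
  have hfixc : Fixes (B' * A * B) c := fixes_conj hB f B B' hBB A hfix
  have hinv : (B' * A * B) * (B' * A' * B) = 1 := by
    calc (B' * A * B) * (B' * A' * B) = B' * A * (B * B') * A' * B := by
          simp only [mul_assoc]
      _ = 1 := by rw [hBB, mul_one, mul_assoc B' A, hA, mul_one, hBB']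
  have hnsc : ¬ ∃ s : k, B' * A * B = s • (1 : Matrix (Fin n) (Fin n) k) := by
    rintro ⟨s, hs⟩
    exact hns ⟨s, scalar_conj B B' hBB A s hs⟩
  have hJ : eval c (Jac P Q) = 0 :=
    hJ0 k n d (by omega) hd c hcnd htr _ _ hinv hfixc hnsc P Q h1
  obtain ⟨p, hp, hpc, hdiv⟩ := hGRAD k n d (by omega) hd c u hgen' P Q
    (fun ρ => ⟨h1 ρ, h2 ρ, h3 ρ, h4 ρ⟩) hJ
  obtain ⟨b, T1, T2, hb, hsemi, hT1, hT2⟩ := hTT k n d hd c hcnd htr
  obtain ⟨z, hz1, hz2, hz3, hz4, hz5⟩ := hSTAB k n d (by omega) hd c hcnd htr p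
    (res c (T1 * T2)) hp hpc (by
      rw [eval_res, glue_rest, map_mul]; exact mul_ne_zero hT1 hT2)
  rw [eval_res, map_mul] at hz2
  obtain ⟨P', Q', hPQ, hne⟩ := hFAM k n d (by omega) hd c z hcnd htr hz3 hz4 hz5 b T1 T2 hb
    hsemi hT1 hT2 (left_ne_zero_of_mul hz2) (right_ne_zero_of_mul hz2)
  obtain ⟨q, hq⟩ := hdiv P' Q' (fun ρ => ⟨(hPQ ρ).1, (hPQ ρ).2.1⟩)
  apply hne
  rw [← eval_res, hq, map_mul, hz1, zero_mul]

omit hJ0 hTT hGRAD hSTAB hFAM in
include hCONV in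
theorem smooth (k : Type u) [Field k] [IsAlgClosed k] [CharZero k] (n d : ℕ) (hn : 2 ≤ n)
    (hd : 2 ≤ d) (f : Cf n d → k) (hf : Nondeg f)
    (hno : ¬ HasAut f) : cotDim f = Fintype.card (Rest n d) := by
  obtain ⟨B, B', hBB, htr⟩ := hDOM k n d hd f hf
  have hBB' : B' * B = 1 := mul_eq_one_comm.mp hBB
  have hcnd : Nondeg (conj B B' f) := nondeg_conj hB f hf B B' hBB
  rw [cotDim_eq f (conj B B' f)
    (fun F hF => (hORB k n d f B B' hBB F).1 hF)
    (fun F hF => by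
      have := (hORB k n d (conj B B' f) B' B hBB' F).1 hF
      rwa [conj_inv hB f B B' hBB] at this)
    (fun F hF => (hORB k n d f B B' hBB F).2 hF)
    (fun F hF => by
      have := (hORB k n d (conj B B' f) B' B hBB' F).2 hF
      rwa [conj_inv hB f B B' hBB] at this)]
  refine hCONV k n d (by omega) hd _ hcnd htr ?_
  intro A A' hA hfix
  by_contra hns
  apply hno
  have h1 := fixes_conj hB (conj B B' f) B' B hBB' A hfix
  rw [conj_inv hB f B B' hBB] at h1
  refine ⟨B * A * B', B * A' * B', 1, ?_, ?_, ?_⟩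
  · calc (B * A * B') * (B * A' * B') = B * A * (B' * B) * A' * B' := by
          simp only [mul_assoc]
      _ = 1 := by rw [hBB', mul_one, mul_assoc B A, hA, mul_one, hBB]
  · intro x; rw [one_smul]; exact h1 x
  · rintro ⟨s, hs⟩
    exact hns ⟨s, scalar_conj B' B hBB' A s hs⟩

theorem main1 (hCARD : S_CARD) (k : Type u) [Field k] [IsAlgClosed k] [CharZero k] (N d : ℕ)
    (hN : 2 ≤ N) (hd : 2 ≤ d) (f : Cf (N + 1) d → k) (hf : Nondeg f) (h : HasAut f) :
    cotDim f ≠ (N + 1) * (N + d).choose d - (N + 1) ^ 2 := by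
  have hcard := hCARD N d (by omega) hd
  have hval : (N + 1) * (N + d).choose d - (N + 1) ^ 2 = Fintype.card (Rest (N + 1) d) := by
    omega
  rw [hval]
  exact sing hB hDOM hORB hJ0 hTT hGRAD hSTAB hFAM k (N + 1) d (by omega) hd hcard.2.2 f hf h

include hCONV in
theorem main (hCARD : S_CARD) (k : Type u) [Field k] [IsAlgClosed k] [CharZero k] (N d : ℕ)
    (hN : 2 ≤ N) (hd : 2 ≤ d) (f : Cf (N + 1) d → k) (hf : Nondeg f) :
    cotDim f ≠ (N + 1) * (N + d).choose d - (N + 1) ^ 2 ↔ HasAut f := by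
  have hcard := hCARD N d (by omega) hd
  have hval : (N + 1) * (N + d).choose d - (N + 1) ^ 2 = Fintype.card (Rest (N + 1) d) := by
    omega
  rw [hval]
  constructor
  · intro hne
    by_contra hno
    exact hne (smooth hB hDOM hORB hCONV k (N + 1) d (by omega) hd f hf hno)
  · intro h
    exact sing hB hDOM hORB hJ0 hTT hGRAD hSTAB hFAM k (N + 1) d (by omega) hd hcard.2.2 f hf h

end

end Pool.Agent.D0H90.SM
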