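import Pool.Agent.D0H90.SM.Chk2

set_option autoImplicit false

namespace Pool.Agent.D0H90.SM

open MvPolynomial Matrix

universe u

theorem aUPB : S_UPB.{u} := Pool.Agent.D0H62.SM.t_UPB
theorem aCOT : S_COT.{u} := Pool.Agent.D0H62.SM.t_COT
theorem aRES : S_RES.{u} := Pool.Agent.D0H18.SM.t_RES aINVK aTHETA
theorem aRAD : S_RAD.{u} := Pool.Agent.D0H81.SM.t_RAD
theorem aLOW : S_LOW.{u} := Pool.Agent.D0H35.SM.t_LOW aRAD
theorem aNOE : S_NOE.{u} := Pool.Agent.D0H49.SM.t_NOE aTAU

section
variable {k : Type u} [Field k] {n d : ℕ}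

theorem dim_eq [IsAlgClosed k] [CharZero k] (hn : 2 ≤ n) (hd : 2 ≤ d) (c : Cf n d → k)
    (hc : Nondeg c) (ht : Transv c) (hN : IsNoetherianRing (locRing c)) :
    ringKrullDim (locRing c) = (Fintype.card (Rest n d) : WithBot ℕ∞) := by
  apply le_antisymm
  · obtain ⟨φ, hφ, _⟩ := aRES k n d hd c ht
    have e : locRing c ≃ₐ[k] φ.range := AlgEquiv.ofInjective φ hφ
    rw [ringKrullDim_eq_of_ringEquiv e.toRingEquiv]
    exact aUPB k (Rest n d) φ.range
  · exact aLOW k n d hn hd c hc ht hN

/-- The local rings at conjugate tuples are isomorphic. -/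
noncomputable def locEquiv (c c' : Cf n d → k) (h : ∀ F, InvReg c F → InvReg c' F)
    (h' : ∀ F, InvReg c' F → InvReg c F) : locRing c ≃+* locRing c' where
  toFun F := ⟨F.1, h F.1 F.2⟩
  invFun F := ⟨F.1, h' F.1 F.2⟩
  left_inv _ := rfl
  right_inv _ := rfl
  map_mul' _ _ := rfl
  map_add' _ _ := rfl

theorem reg_iff_cot [IsAlgClosed k] [CharZero k] (hn : 2 ≤ n) (hd : 2 ≤ d) (c : Cf n d → k)
    (hc : Nondeg c) (ht : Transv c) (hN : IsNoetherianRing (locRing c)) :
    IsRegularLocalRing (locRing c) ↔ cotDim c = Fintype.card (Rest n d) := by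
  rw [IsRegularLocalRing.iff_finrank_cotangentSpace, aCOT, dim_eq hn hd c hc ht hN]
  exact_mod_cast Iff.rfl

theorem regular_iff [IsAlgClosed k] [CharZero k] (hn : 3 ≤ n) (hd : 2 ≤ d)
    (hpos : 0 < Fintype.card (Rest n d)) (f : Cf n d → k) (hf : Nondeg f) :
    IsRegularLocalRing (locRing f) ↔ ¬ HasAut f := by
  obtain ⟨B, B', hBB, htr⟩ := aDOM k n d hd f hf
  have hBB' : B' * B = 1 := mul_eq_one_comm.mp hBB
  have hcnd : Nondeg (conj B B' f) := nondeg_conj aBASE f hf B B' hBB
  have h1 : ∀ F, InvReg f F → InvReg (conj B B' f) F :=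
    fun F hF => (aORB k n d f B B' hBB F).1 hF
  have h2 : ∀ F, InvReg (conj B B' f) F → InvReg f F := fun F hF => by
    have := (aORB k n d (conj B B' f) B' B hBB' F).1 hF
    rwa [conj_inv aBASE f B B' hBB] at this
  have h3 : ∀ F, InvVan f F → InvVan (conj B B' f) F :=
    fun F hF => (aORB k n d f B B' hBB F).2 hF
  have h4 : ∀ F, InvVan (conj B B' f) F → InvVan f F := fun F hF => by
    have := (aORB k n d (conj B B' f) B' B hBB' F).2 hF
    rwa [conj_inv aBASE f B B' hBB] at this
  have hcot : cotDim f = cotDim (conj B B' f) := cotDim_eq _ _ h1 h2 h3 h4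
  let e : locRing f ≃+* locRing (conj B B' f) := locEquiv f _ h1 h2
  constructor
  · intro hreg haut
    have hreg' : IsRegularLocalRing (locRing (conj B B' f)) := IsRegularLocalRing.of_ringEquiv e
    have hN : IsNoetherianRing (locRing (conj B B' f)) := inferInstance
    have := (reg_iff_cot (by omega) hd _ hcnd htr hN).1 hreg'
    exact sing aBASE aDOM aORB aJ0 aTT aGRAD aSTAB aFAM k n d hn hd hpos f hf haut
      (hcot.trans this)
  · intro hno
    have hsc : ∀ A A' : Matrix (Fin n) (Fin n) k, A * A' = 1 → Fixes A (conj B B' f) →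
        ∃ r : k, A = r • (1 : Matrix (Fin n) (Fin n) k) := by
      intro A A' hA hfix
      by_contra hns
      apply hno
      have h1 := fixes_conj aBASE (conj B B' f) B' B hBB' A hfix
      rw [conj_inv aBASE f B B' hBB] at h1
      refine ⟨B * A * B', B * A' * B', 1, ?_, ?_, ?_⟩
      · calc (B * A * B') * (B * A' * B') = B * A * (B' * B) * A' * B' := by
              simp only [mul_assoc]
          _ = 1 := by rw [hBB', mul_one, mul_assoc B A, hA, mul_one, hBB]
      · intro x; rw [one_smul]; exact h1 x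
      · rintro ⟨s, hs⟩
        exact hns ⟨s, scalar_conj B' B hBB' A s hs⟩
    have hN : IsNoetherianRing (locRing (conj B B' f)) :=
      aNOE k n d (by omega) hd _ hcnd htr hsc
    have hreg : IsRegularLocalRing (locRing (conj B B' f)) :=
      (reg_iff_cot (by omega) hd _ hcnd htr hN).2 (hcot ▸ 
        (smooth aBASE aDOM aORB aCONV k n d (by omega) hd f hf hno))
    exact IsRegularLocalRing.of_ringEquiv e.symm

end

end Pool.Agent.D0H90.SM
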