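import Pool.Agent.D0H90.SM.Reg

set_option autoImplicit false

/-!
# The local ring of `M_d^N` at the class of a map, in the form used in the statement
-/

namespace Pool.Agent.D0H90.SM

open MvPolynomial Matrix

universe u

section
variable {n d : ℕ} {k : Type u} [Field k]

/-- The field `k(V)` of rational functions on the space `V` of tuples of `n` forms of degree `d` in `n`
variables (the fraction field of the polynomial ring in the coefficients). -/
def RatV (n d : ℕ) (k : Type u) [Field k] : Type u := FractionRing (MvPolynomial (Cf n d) k)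

noncomputable instance instFieldRatV (n d : ℕ) (k : Type u) [Field k] : Field (RatV n d k) :=
  FractionRing.field (MvPolynomial (Cf n d) k)

/-- The inclusion of the polynomials in the rational functions. -/
noncomputable def toRat (n d : ℕ) (k : Type u) [Field k] :
    MvPolynomial (Cf n d) k →+* RatV n d k :=
  algebraMap (MvPolynomial (Cf n d) k) (FractionRing (MvPolynomial (Cf n d) k))

/-- The rational function `F` is invariant under conjugation by `GL_n(k)` and regular at `f`: `F = P / Q` with
`P / Q` invariant and `Q(f) ≠ 0`. -/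
def InvariantRegular (f : Cf n d → k) (F : RatV n d k) : Prop :=
  ∃ P Q : MvPolynomial (Cf n d) k, Invt P Q ∧ eval f Q ≠ 0 ∧ F * toRat n d k Q = toRat n d k P

theorem ir_iff (f : Cf n d → k) (F : RatV n d k) : InvariantRegular f F ↔ InvReg f F := Iff.rfl

theorem ir_mul (f : Cf n d → k) {F G : RatV n d k} (hF : InvariantRegular f F)
    (hG : InvariantRegular f G) : InvariantRegular f (F * G) :=
  InvReg.mul (c := f) (F := F) (G := G) hF hG

theorem ir_add (f : Cf n d → k) {F G : RatV n d k} (hF : InvariantRegular f F)
    (hG : InvariantRegular f G) : InvariantRegular f (F + G) :=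
  InvReg.add (c := f) (F := F) (G := G) hF hG

theorem ir_one (f : Cf n d → k) : InvariantRegular f (1 : RatV n d k) :=
  ⟨1, 1, fun A A' _ c => by simp, by simp, by simp⟩

theorem ir_zero (f : Cf n d → k) : InvariantRegular f (0 : RatV n d k) :=
  ⟨0, 1, fun A A' _ c => by simp, by simp, by simp⟩

theorem ir_neg (f : Cf n d → k) {F : RatV n d k} (hF : InvariantRegular f F) :
    InvariantRegular f (-F) := by
  obtain ⟨P, Q, h1, h2, h3⟩ := hF
  refine ⟨-P, Q, fun A A' hA c => ?_, h2, ?_⟩
  · have := h1 A A' hA c
    simp only [map_neg, neg_mul, this]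
  · rw [map_neg, ← h3, neg_mul]

/-- The local ring of the moduli space at the class of `f`: the invariant rational functions on `V` which
are regular at `f`. -/
noncomputable def localRing (f : Cf n d → k) : Subring (RatV n d k) where
  carrier := {F | InvariantRegular f F}
  mul_mem' := ir_mul f
  one_mem' := ir_one f
  add_mem' := ir_add f
  zero_mem' := ir_zero f
  neg_mem' := ir_neg f

/-- Comparison of the two forms of the local ring. -/
noncomputable def cmp (f : Cf n d → k) : localRing f ≃+* locRing f where
  toFun F := ⟨F.1, F.2⟩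
  invFun F := ⟨F.1, F.2⟩
  left_inv _ := rfl
  right_inv _ := rfl
  map_mul' _ _ := rfl
  map_add' _ _ := rfl

theorem regular_iff' [IsAlgClosed k] [CharZero k] (hn : 3 ≤ n) (hd : 2 ≤ d)
    (hpos : 0 < Fintype.card (Rest n d)) (f : Cf n d → k) (hf : Nondeg f) :
    IsRegularLocalRing (localRing f) ↔ ¬ HasAut f := by
  rw [← regular_iff hn hd hpos f hf]
  constructor
  · intro h; exact IsRegularLocalRing.of_ringEquiv (cmp f)
  · intro h; exact IsRegularLocalRing.of_ringEquiv (cmp f).symm

end

theorem final (k : Type u) [Field k] [IsAlgClosed k] [CharZero k] (N d : ℕ) (hN : 2 ≤ N)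
    (hd : 2 ≤ d) (f : Cf (N + 1) d → k) (hf : Nondeg f) :
    IsRegularLocalRing (localRing f) ↔ ¬ HasAut f :=
  regular_iff' (by omega) hd (aCARD N d (by omega) hd).2.2 f hf

end Pool.Agent.D0H90.SM
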