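import Pool.Agent.D0H90.SM.Stm3
import Pool.Agent.D0H90.SM.Defs3

set_option autoImplicit false

/-!
# Project SM (MP_807a54_ag): fourth batch, the converse

If `c` has only scalar automorphisms, then the cotangent space of `locRing c` has the dimension
`#Rest` (the class of `c` is a smooth point).
-/

namespace Pool.Agent.D0H90.SM

open MvPolynomial Matrix

universe u

/-- GENR (depends on BASE, THETA, SOLI). Let `E` be an invertible solution. The coordinates of
`f^E = E⁻¹ ∘ f ∘ E`, a point of the slice through `c`, are algebraically independent over `k`.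

Proof. The coordinates of `f` are algebraically independent over `k` (`θ` is injective, THETA), `#Cf` many.
`E` has entries algebraic over `k(f)` (integral over `Ov c c`, SOLI; `v = c`). Let `z = rest (f^E)`. As
`f^E = glue c z`, one has `f = conj E⁻¹ E (glue c z) ∈ k(E, z)`. So `k(E, z)` has transcendence
degree `≥ #Cf = n² + #Rest` over `k` and is generated by the `n²` entries of `E` and the `#Rest`
coordinates `z`. Hence these are algebraically independent. (`#Cf = n² + #Rest` since exactly `n²`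
indices of `Cf` are not in `Rest`, `d ≥ 1`.) -/
def S_GENR : Prop :=
  ∀ (k : Type u) [Field k] [IsAlgClosed k] [CharZero k] (n d : ℕ), 2 ≤ d →
    ∀ c : Cf n d → k, Nondeg c → Transv c → ∀ E, Sol c E → E.det ≠ 0 →
      ∀ R : MvPolynomial (Rest n d) k, R ≠ 0 → aeval (rest (conj E E⁻¹ (genf c))) R ≠ 0

/-- TAU (depends on BASE, INVK, SOLI, FINS, NDG, DESC, PLACE, OVP, UNIQ, TT, GENR; very similar to PSI with `w = rest c`,
`glue c w = c`). If `c` has only scalar automorphisms, then for every `D` there is a map `τ` from the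
polynomials on the slice to the rational functions such that for `deg R ≤ D` (i) `τ(R)` is invariant and
regular at `c`; (ii) `τ(S)(c) ≠ 0` if `S(c) ≠ 0`; (iii) linear relations between polynomials on the slice with
invariant coefficients are preserved.

Proof. Let `T = T1/T2` be as in TT, `Z = {E : Sol c E}`, `Z₀`, `bad ∌ w` as in the proof of PSI (with
`y₀ = c`, `w = rest c`). Let `K ∈ k[Rest]` vanish on `bad`, `K(w) = 1`. Let `M` be a multiple of `d - 1`
with `bM > D + deg K`. For `E ∈ Z` put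
`ψ_R(E) = (K R)(rest (E⁻¹ f E)) det(E)^(bM) / T(f)^M` if `det E ≠ 0`, and 0 otherwise, and
`a_R = Σ_(E ∈ Z) ψ_R(E)`. As in PSI, `σ(ψ_R(E)) = ψ_R(A σ(E))` and `ψ_R(E)` is integral over `Ov c c`, so DESC
(`b = 0`) gives `a_R θ(Q) = θ(P)` with `Invt P Q`, `Q(c) ≠ 0`; let `τ(R) = P/Q`. (ii) Place at `(1, w)`: as in
PSI, `pl(ψ_S(E)) = 0` unless `E = r 𝓔` with `r^(d-1) = 1`, and then `ψ_S(E) = r^(nbM) ψ_S(𝓔) = ψ_S(𝓔)`. All
these `r 𝓔` are in `Z`, so `τ(S)(c) = (d-1) S(w) / T(c)^M ≠ 0`. (iii) Let `Σ_j res(P_j) R_j = 0`. Let `E ∈ Z` be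
invertible, `z = rest(f^E)`, `f^E = glue c z`. Then `Σ_j P_j(f^E) R_j(z) = 0`. By INVK (with `b = 0`; over
`OM`) `P_j(f) Q(f^E) = P_j(f^E) Q(f)`, and `Q(f^E) ≠ 0` by GENR (`res c Q ≠ 0` as `Q(c) ≠ 0`). So
`Σ_j P_j(f) R_j(z) = 0`; multiply by `K(z) det(E)^(bM)/T^M` and sum over `E`. -/
def S_TAU : Prop :=
  ∀ (k : Type u) [Field k] [IsAlgClosed k] [CharZero k] (n d : ℕ), 2 ≤ n → 2 ≤ d →
    ∀ c : Cf n d → k, Nondeg c → Transv c →
      (∀ A A' : Matrix (Fin n) (Fin n) k, A * A' = 1 → Fixes A c →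
        ∃ r : k, A = r • (1 : Matrix (Fin n) (Fin n) k)) →
      ∀ D : ℕ, ∃ τ : MvPolynomial (Rest n d) k → Rat n d k,
        (∀ R, R.totalDegree ≤ D → InvReg c (τ R)) ∧
        (∀ S, S.totalDegree ≤ D → eval (rest c) S ≠ 0 → ¬ InvVan c (τ S)) ∧
        ∀ (t : ℕ) (P : Fin t → Pol n d k) (Q : Pol n d k)
          (R : Fin t → MvPolynomial (Rest n d) k), (∀ j, Invt (P j) Q) → eval c Q ≠ 0 →
          (∀ j, (R j).totalDegree ≤ D) → ∑ j, res c (P j) * R j = 0 →
          ∑ j, algebraMap _ (Rat n d k) (P j) * τ (R j) = 0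

/-- NAK. Let `h_ρ = P_ρ/Q` be functions vanishing at `c` with independent gradients in the directions of the
slice, and `h = P₀/Q` with the gradient 0 at `c` (common denominator `Q`). Then, on the slice,
`S h = Σ R_(ρ,ρ') h_ρ h_ρ'` with polynomials `S`, `R`, `S(c) ≠ 0`.

Proof. `O` = local ring of `k[Rest]` at `rest c`, `𝔪` = its maximal ideal, generated by the `X_ρ - c_ρ`.
By the hypothesis the `res c (P_ρ)` form a basis of `𝔪/𝔪²` (their gradients at `c` are those of the `h_ρ`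
times `Q(c)`, as `P_ρ(c) = 0`), so they generate `𝔪` (Nakayama), and `res c (P₀) ∈ 𝔪²`, i.e.
`res c P₀ = Σ φ_(ρ,ρ') res c (P_ρ) res c (P_ρ')`, `φ ∈ O`. Clear the denominators. -/
def S_NAK : Prop :=
  ∀ (k : Type u) [Field k] (n d : ℕ) (c : Cf n d → k) (P : Rest n d → Pol n d k)
    (P₀ Q : Pol n d k), eval c Q ≠ 0 → (∀ ρ, eval c (P ρ) = 0) → eval c P₀ = 0 →
    eval c (Jac P fun _ => Q) ≠ 0 → (∀ ρ, eval c (grad P₀ Q ρ) = 0) →
    ∃ (S : MvPolynomial (Rest n d) k) (R : Rest n d → Rest n d → MvPolynomial (Rest n d) k),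
      eval (rest c) S ≠ 0 ∧
      S * res c P₀ * res c Q = ∑ ρ, ∑ ρ', R ρ ρ' * res c (P ρ) * res c (P ρ')

/-- CONV (depends on TT, FAM, TAU, NAK). If the nondegenerate transversal `c` has only scalar
automorphisms, then `dim_k 𝔪/𝔪² = #Rest` for the maximal ideal `𝔪 = maxId c` of `locRing c`.

Proof. For `h ∈ 𝔪`, `h = P/Q`, let `D(h)_ρ = (grad P Q ρ)(c) / Q(c)²`. This is well defined (depends only on the
fraction, `Q(c) ≠ 0`), `k`-linear, and 0 on `𝔪²`. It is surjective onto `k^Rest`: FAM with `w = rest c`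
(`glue c (rest c) = c`), `T` from TT; subtract the values at `c` (constants). Kernel: let `D(h) = 0`, and
`h_ρ ∈ 𝔪` with independent `D(h_ρ)`. Common denominator `Q` (product of the denominators; the pairs stay
invariant): `h = P₀/Q`, `h_ρ = P_ρ/Q`. NAK gives `S`, `R`. TAU with `D` = maximum of the degrees of `S` and the `R`;
(iii) for the relation `res(P₀ Q) S - Σ res(P_ρ P_ρ') R_(ρρ') = 0` (coefficients with the denominator `Q²`:
`Invt (P₀ Q) Q²`, `Invt (P_ρ P_ρ') Q²`): `P₀ Q τ(S) = Σ P_ρ P_ρ' τ(R_(ρρ'))`, i.e. `h τ(S) = Σ h_ρ h_ρ' τ(R_(ρρ'))`.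
`τ(S)` is a unit of `locRing c` (`mem_maxId_iff`), so `h ∈ 𝔪²`. So `D` induces an isomorphism
`𝔪/𝔪² → k^Rest`. -/
def S_CONV : Prop :=
  ∀ (k : Type u) [Field k] [IsAlgClosed k] [CharZero k] (n d : ℕ), 2 ≤ n → 2 ≤ d →
    ∀ c : Cf n d → k, Nondeg c → Transv c →
      (∀ A A' : Matrix (Fin n) (Fin n) k, A * A' = 1 → Fixes A c →
        ∃ r : k, A = r • (1 : Matrix (Fin n) (Fin n) k)) →
      Module.finrank k (maxId c).Cotangent = Fintype.card (Rest n d)

/-- CARD. `#Rest = n C(n - 1 + d, d) - n²` and `#Rest > 0` for `n, d ≥ 2`; `#Cf = n² + #Rest`. Here with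
`n = N + 1`.

Proof. `#Ex n d = C(n - 1 + d, d)` (stars and bars: e.g. `Sym`, `Finset.card_antidiagonalTuple` or
`Finset.Nat...`), and the exponents with some `m_i = d` are the `n` ones `d e_i` (`d ≥ 1`). Some exponent is
not of this form: `(d - 1, 1, 0, …)`. -/
def S_CARD : Prop :=
  ∀ N d : ℕ, 1 ≤ N → 2 ≤ d →
    Fintype.card (Cf (N + 1) d) = (N + 1) * (N + d).choose d ∧
    Fintype.card (Cf (N + 1) d) = (N + 1) ^ 2 + Fintype.card (Rest (N + 1) d) ∧
    0 < Fintype.card (Rest (N + 1) d)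

end Pool.Agent.D0H90.SM
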